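import Pool.Agent.Work.MP_02d86d_gt.Est

/-! The Steiner symmetral of a convex body is a convex body of the same volume. -/

set_option autoImplicit false

namespace MP_02d86d_gt

open MeasureTheory Set Filter Topology Metric

variable {n : ℕ}

/-- The chords of a convex set are convex. -/
theorem convex_chord (u : EuclideanSpace ℝ (Fin n)) {K : Set (EuclideanSpace ℝ (Fin n))}
    (hc : Convex ℝ K) (t : (ℝ ∙ u)ᗮ) : Convex ℝ (chord u K t) := by
  intro y hy z hz a b ha hb hab
  have h := hc hy hz ha hb hab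
  have e : a • pt u t y + b • pt u t z = pt u t (a • y + b • z) := by
    unfold pt
    rw [smul_add, smul_add, smul_smul, smul_smul, add_smul, smul_eq_mul, smul_eq_mul]
    have h1 : a • (t : EuclideanSpace ℝ (Fin n)) + b • (t : EuclideanSpace ℝ (Fin n)) = t := by
      rw [← add_smul, hab, one_smul]
    calc a • (t : EuclideanSpace ℝ (Fin n)) + (a * y) • u +
          (b • (t : EuclideanSpace ℝ (Fin n)) + (b * z) • u)
        = (a • (t : EuclideanSpace ℝ (Fin n)) + b • (t : EuclideanSpace ℝ (Fin n))) +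
          ((a * y) • u + (b * z) • u) := by abel
      _ = _ := by rw [h1]
  rw [e] at h
  exact h

/-- The chords of a compact set are compact. -/
theorem isCompact_chord {u : EuclideanSpace ℝ (Fin n)} (hu : ‖u‖ = 1)
    {K : Set (EuclideanSpace ℝ (Fin n))} (hK : IsCompact K) (t : (ℝ ∙ u)ᗮ) :
    IsCompact (chord u K t) := by
  have hcont : Continuous fun y : ℝ => pt u t y := by unfold pt; fun_prop
  have h1 : IsCompact ((fun x : EuclideanSpace ℝ (Fin n) => inner ℝ x u) '' K) :=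
    hK.image (by fun_prop)
  refine h1.of_isClosed_subset (hK.isClosed.preimage hcont) ?_
  intro y hy
  exact ⟨pt u t y, hy, inner_pt hu t y⟩

/-- A chord of a convex body is empty or a compact interval. -/
theorem chord_cases {u : EuclideanSpace ℝ (Fin n)} (hu : ‖u‖ = 1)
    {K : Set (EuclideanSpace ℝ (Fin n))} (hK : IsCompact K) (hc : Convex ℝ K) (t : (ℝ ∙ u)ᗮ) :
    chord u K t = ∅ ∨ ∃ a b : ℝ, a ≤ b ∧ chord u K t = Icc a b := by
  rcases (chord u K t).eq_empty_or_nonempty with h | h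
  · exact Or.inl h
  · right
    have hcomp := isCompact_chord hu hK t
    have hconn : IsConnected (chord u K t) := (convex_chord u hc t).isConnected h
    have e := eq_Icc_of_connected_compact hconn hcomp
    refine ⟨sInf (chord u K t), sSup (chord u K t), ?_, e⟩
    rw [e] at h
    exact nonempty_Icc.1 h

/-- The chord of the symmetral, if the chord of the set is an interval. -/
theorem chord_st {u : EuclideanSpace ℝ (Fin n)} (hu : ‖u‖ = 1)
    {K : Set (EuclideanSpace ℝ (Fin n))} {t : (ℝ ∙ u)ᗮ} {a b : ℝ} (hab : a ≤ b)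
    (h : chord u K t = Icc a b) :
    chord u (st u K) t = Icc (-((b - a) / 2)) ((b - a) / 2) := by
  ext y
  have h1 : y ∈ chord u (st u K) t ↔ pt u t y ∈ st u K := Iff.rfl
  rw [h1, mem_st hu, h, Real.volume_Icc, ENNReal.toReal_ofReal (by linarith), mem_Icc,
    ← abs_le]
  constructor
  · rintro ⟨-, h2⟩
    linarith
  · intro h2
    exact ⟨nonempty_Icc.2 hab, by linarith⟩

theorem chord_st_empty {u : EuclideanSpace ℝ (Fin n)} (hu : ‖u‖ = 1)
    {K : Set (EuclideanSpace ℝ (Fin n))} {t : (ℝ ∙ u)ᗮ} (h : chord u K t = ∅) :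
    chord u (st u K) t = ∅ := by
  ext y
  have h1 : y ∈ chord u (st u K) t ↔ pt u t y ∈ st u K := Iff.rfl
  rw [h1, mem_st hu, h]
  simp

/-- The chord of the mirror image. -/
theorem chord_rho {u : EuclideanSpace ℝ (Fin n)} (hu : ‖u‖ = 1)
    (K : Set (EuclideanSpace ℝ (Fin n))) (t : (ℝ ∙ u)ᗮ) :
    chord u (rho u '' K) t = {y | -y ∈ chord u K t} := by
  ext y
  have h1 : y ∈ chord u (rho u '' K) t ↔ pt u t y ∈ rho u '' K := Iff.rfl
  have h2 : y ∈ {y | -y ∈ chord u K t} ↔ pt u t (-y) ∈ K := Iff.rfl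
  rw [h1, h2, ← rho_pt hu]
  constructor
  · rintro ⟨x, hx, e⟩
    rw [← e, rho_rho]
    exact hx
  · intro h
    exact ⟨_, h, rho_rho u _⟩

/-- The chords of a convex body, of its symmetral and of its mirror image. -/
theorem chords {u : EuclideanSpace ℝ (Fin n)} (hu : ‖u‖ = 1)
    {K : Set (EuclideanSpace ℝ (Fin n))} (hK : IsCompact K) (hc : Convex ℝ K) :
    Chords u K := by
  intro t
  rcases chord_cases hu hK hc t with h | ⟨a, b, hab, h⟩
  · left
    refine ⟨h, chord_st_empty hu h, ?_⟩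
    rw [chord_rho hu, h]
    simp
  · right
    refine ⟨a, b, hab, h, chord_st hu hab h, ?_⟩
    rw [chord_rho hu, h]
    ext y
    rw [mem_ofPred_eq, mem_Icc, mem_Icc]
    constructor
    · rintro ⟨h1, h2⟩
      constructor <;> linarith
    · rintro ⟨h1, h2⟩
      constructor <;> linarith

/-- The symmetral of a convex body, without the measure. -/
theorem mem_st_iff {u : EuclideanSpace ℝ (Fin n)} (hu : ‖u‖ = 1)
    {K : Set (EuclideanSpace ℝ (Fin n))} (hK : IsCompact K) (hc : Convex ℝ K) (t : (ℝ ∙ u)ᗮ)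
    (y : ℝ) : pt u t y ∈ st u K ↔
      ∃ a b : ℝ, pt u t a ∈ K ∧ pt u t b ∈ K ∧ 2 * |y| ≤ b - a := by
  have h1 : pt u t y ∈ st u K ↔ y ∈ chord u (st u K) t := Iff.rfl
  rw [h1]
  rcases chord_cases hu hK hc t with h | ⟨a, b, hab, h⟩
  · rw [chord_st_empty hu h]
    constructor
    · intro h2
      exact absurd h2 (notMem_empty _)
    · rintro ⟨a, b, ha, -, -⟩
      have : a ∈ chord u K t := ha
      rw [h] at this
      exact absurd this (notMem_empty _)
  · rw [chord_st hu hab h, mem_Icc, ← abs_le]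
    constructor
    · intro h2
      refine ⟨a, b, ?_, ?_, by linarith⟩
      · have : a ∈ chord u K t := by rw [h]; exact left_mem_Icc.2 hab
        exact this
      · have : b ∈ chord u K t := by rw [h]; exact right_mem_Icc.2 hab
        exact this
    · rintro ⟨a', b', ha', hb', h2⟩
      have h3 : a' ∈ chord u K t := ha'
      have h4 : b' ∈ chord u K t := hb'
      rw [h, mem_Icc] at h3 h4
      linarith [h3.1, h4.2]

/-- The set of pairs of points of `K` on a common line parallel to `u`, and a height. -/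
def Par (u : EuclideanSpace ℝ (Fin n)) (K : Set (EuclideanSpace ℝ (Fin n))) :
    Set ((EuclideanSpace ℝ (Fin n) × EuclideanSpace ℝ (Fin n)) × ℝ) :=
  {z | z.1.1 ∈ K ∧ z.1.2 ∈ K ∧ z.1.1 - (inner ℝ z.1.1 u) • u = z.1.2 - (inner ℝ z.1.2 u) • u ∧
    2 * |z.2| ≤ inner ℝ z.1.2 u - inner ℝ z.1.1 u}

theorem st_eq_image {u : EuclideanSpace ℝ (Fin n)} (hu : ‖u‖ = 1)
    {K : Set (EuclideanSpace ℝ (Fin n))} (hK : IsCompact K) (hc : Convex ℝ K) :
    st u K = (fun z : (EuclideanSpace ℝ (Fin n) × EuclideanSpace ℝ (Fin n)) × ℝ =>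
      z.1.1 - (inner ℝ z.1.1 u) • u + z.2 • u) '' Par u K := by
  have hpt : ∀ (t : (ℝ ∙ u)ᗮ) (y : ℝ),
      pt u t y - (inner ℝ (pt u t y) u) • u = (t : EuclideanSpace ℝ (Fin n)) := by
    intro t y
    rw [inner_pt hu]
    unfold pt
    abel
  ext x
  constructor
  · intro hx
    obtain ⟨t, y, rfl⟩ := exists_pt hu x
    obtain ⟨a, b, ha, hb, hy⟩ := (mem_st_iff hu hK hc t y).1 hx
    refine ⟨((pt u t a, pt u t b), y), ⟨ha, hb, ?_, ?_⟩, ?_⟩
    · simp only [hpt]
    · simp only [inner_pt hu]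
      exact hy
    · simp only [hpt]
      rfl
  · rintro ⟨⟨⟨p, q⟩, y⟩, ⟨hp, hq, hpq, hy⟩, rfl⟩
    simp only at hp hq hpq hy ⊢
    obtain ⟨t, a, rfl⟩ := exists_pt hu p
    obtain ⟨t', b, rfl⟩ := exists_pt hu q
    rw [hpt, hpt] at hpq
    have ht : t = t' := Subtype.ext hpq
    subst ht
    rw [inner_pt hu, inner_pt hu] at hy
    rw [hpt]
    exact (mem_st_iff hu hK hc t y).2 ⟨a, b, hp, hq, hy⟩

theorem isCompact_Par {u : EuclideanSpace ℝ (Fin n)} (hu : ‖u‖ = 1)
    {K : Set (EuclideanSpace ℝ (Fin n))} (hK : IsCompact K) : IsCompact (Par u K) := by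
  obtain ⟨R, hR⟩ := hK.isBounded.subset_closedBall 0
  have hB : IsCompact ((K ×ˢ K) ×ˢ Icc (-R) R) := (hK.prod hK).prod isCompact_Icc
  have hcl : IsClosed {z : (EuclideanSpace ℝ (Fin n) × EuclideanSpace ℝ (Fin n)) × ℝ |
      z.1.1 - (inner ℝ z.1.1 u) • u = z.1.2 - (inner ℝ z.1.2 u) • u ∧
        2 * |z.2| ≤ inner ℝ z.1.2 u - inner ℝ z.1.1 u} := by
    have h1 : IsClosed {z : (EuclideanSpace ℝ (Fin n) × EuclideanSpace ℝ (Fin n)) × ℝ |
        z.1.1 - (inner ℝ z.1.1 u) • u = z.1.2 - (inner ℝ z.1.2 u) • u} :=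
      isClosed_eq (by fun_prop) (by fun_prop)
    have h2 : IsClosed {z : (EuclideanSpace ℝ (Fin n) × EuclideanSpace ℝ (Fin n)) × ℝ |
        2 * |z.2| ≤ inner ℝ z.1.2 u - inner ℝ z.1.1 u} :=
      isClosed_le (by fun_prop) (by fun_prop)
    exact h1.inter h2
  have e : Par u K = ((K ×ˢ K) ×ˢ Icc (-R) R) ∩
      {z : (EuclideanSpace ℝ (Fin n) × EuclideanSpace ℝ (Fin n)) × ℝ |
        z.1.1 - (inner ℝ z.1.1 u) • u = z.1.2 - (inner ℝ z.1.2 u) • u ∧
          2 * |z.2| ≤ inner ℝ z.1.2 u - inner ℝ z.1.1 u} := by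
    ext ⟨⟨p, q⟩, y⟩
    constructor
    · rintro ⟨hp, hq, hpq, hy⟩
      simp only at hp hq hpq hy
      refine ⟨⟨⟨hp, hq⟩, ?_⟩, hpq, hy⟩
      have h1 : ∀ x ∈ K, |inner ℝ x u| ≤ R := by
        intro x hx
        have h2 := abs_real_inner_le_norm x u
        rw [hu, mul_one] at h2
        exact h2.trans (mem_closedBall_zero_iff.1 (hR hx))
      have h2 := abs_le.1 (h1 p hp)
      have h3 := abs_le.1 (h1 q hq)
      have h4 : |y| ≤ R := by linarith [h2.1, h3.2]
      exact ⟨(abs_le.1 h4).1, (abs_le.1 h4).2⟩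
    · rintro ⟨⟨⟨hp, hq⟩, -⟩, hpq, hy⟩
      exact ⟨hp, hq, hpq, hy⟩
  rw [e]
  exact hB.inter_right hcl

theorem convex_Par (u : EuclideanSpace ℝ (Fin n))
    {K : Set (EuclideanSpace ℝ (Fin n))} (hc : Convex ℝ K) : Convex ℝ (Par u K) := by
  rintro ⟨⟨p, q⟩, y⟩ ⟨hp, hq, hpq, hy⟩ ⟨⟨p', q'⟩, y'⟩ ⟨hp', hq', hpq', hy'⟩ a b ha hb hab
  simp only at hp hq hpq hy hp' hq' hpq' hy'
  have hlin : ∀ x x' : EuclideanSpace ℝ (Fin n),
      (a • x + b • x') - (inner ℝ (a • x + b • x') u) • u =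
        a • (x - (inner ℝ x u) • u) + b • (x' - (inner ℝ x' u) • u) := by
    intro x x'
    rw [inner_add_left, real_inner_smul_left, real_inner_smul_left, add_smul, mul_smul, mul_smul,
      smul_sub, smul_sub]
    abel
  refine ⟨hc hp hp' ha hb hab, hc hq hq' ha hb hab, ?_, ?_⟩
  · change (a • p + b • p') - (inner ℝ (a • p + b • p') u) • u =
      (a • q + b • q') - (inner ℝ (a • q + b • q') u) • u
    rw [hlin, hlin, hpq, hpq']
  · change 2 * |a * y + b * y'| ≤ inner ℝ (a • q + b • q') u - inner ℝ (a • p + b • p') u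
    rw [inner_add_left, inner_add_left, real_inner_smul_left, real_inner_smul_left,
      real_inner_smul_left, real_inner_smul_left]
    have h1 : |a * y + b * y'| ≤ a * |y| + b * |y'| := by
      refine (abs_add_le _ _).trans ?_
      rw [abs_mul, abs_mul, abs_of_nonneg ha, abs_of_nonneg hb]
    have h2 := mul_le_mul_of_nonneg_left hy ha
    have h3 := mul_le_mul_of_nonneg_left hy' hb
    linarith

/-- The symmetral of a convex body is compact. -/
theorem isCompact_st {u : EuclideanSpace ℝ (Fin n)} (hu : ‖u‖ = 1)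
    {K : Set (EuclideanSpace ℝ (Fin n))} (hK : IsCompact K) (hc : Convex ℝ K) :
    IsCompact (st u K) := by
  rw [st_eq_image hu hK hc]
  exact (isCompact_Par hu hK).image (by fun_prop)

/-- The symmetral of a convex body is convex. -/
theorem convex_st {u : EuclideanSpace ℝ (Fin n)} (hu : ‖u‖ = 1)
    {K : Set (EuclideanSpace ℝ (Fin n))} (hK : IsCompact K) (hc : Convex ℝ K) :
    Convex ℝ (st u K) := by
  rw [st_eq_image hu hK hc]
  refine (convex_Par u hc).is_linear_image (f := fun z => z.1.1 - (inner ℝ z.1.1 u) • u +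
    z.2 • u) ?_
  constructor
  · intro z w
    simp only [Prod.fst_add, Prod.snd_add]
    rw [inner_add_left, add_smul, add_smul]
    abel
  · intro c z
    simp only [Prod.smul_fst, Prod.smul_snd]
    rw [real_inner_smul_left, smul_add, smul_sub, smul_smul, smul_smul, smul_eq_mul]

/-- The symmetral of a nonempty convex body is nonempty. -/
theorem st_nonempty {u : EuclideanSpace ℝ (Fin n)} (hu : ‖u‖ = 1)
    {K : Set (EuclideanSpace ℝ (Fin n))} (hK : IsCompact K) (hc : Convex ℝ K)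
    (hne : K.Nonempty) : (st u K).Nonempty := by
  obtain ⟨x, hx⟩ := hne
  obtain ⟨t, y, rfl⟩ := exists_pt hu x
  exact ⟨pt u t 0, (mem_st_iff hu hK hc t 0).2 ⟨y, y, hx, hx, by simp⟩⟩

/-- The symmetral stays in the ball. -/
theorem st_subset {u : EuclideanSpace ℝ (Fin n)} (hu : ‖u‖ = 1)
    {K : Set (EuclideanSpace ℝ (Fin n))} (hK : IsCompact K) (hc : Convex ℝ K) {R : ℝ}
    (hR : K ⊆ closedBall 0 R) : st u K ⊆ closedBall 0 R := by
  intro x hx
  obtain ⟨t, y, rfl⟩ := exists_pt hu x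
  obtain ⟨a, b, ha, hb, hy⟩ := (mem_st_iff hu hK hc t y).1 hx
  have h1 := mem_closedBall_zero_iff.1 (hR ha)
  have h2 := mem_closedBall_zero_iff.1 (hR hb)
  have hR0 : 0 ≤ R := (norm_nonneg _).trans h1
  have h3 : ‖pt u t a‖ ^ 2 ≤ R ^ 2 := pow_le_pow_left₀ (norm_nonneg _) h1 2
  have h4 : ‖pt u t b‖ ^ 2 ≤ R ^ 2 := pow_le_pow_left₀ (norm_nonneg _) h2 2
  rw [norm_pt hu] at h3 h4
  have h5 : |y| ^ 2 ≤ a ^ 2 ∨ |y| ^ 2 ≤ b ^ 2 := by
    rcases le_total |a| |b| with h | h
    · right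
      have h6 : |y| ≤ |b| := by
        have := neg_abs_le a
        have := le_abs_self b
        linarith
      calc |y| ^ 2 ≤ |b| ^ 2 := pow_le_pow_left₀ (abs_nonneg _) h6 2
        _ = b ^ 2 := sq_abs b
    · left
      have h6 : |y| ≤ |a| := by
        have := neg_abs_le a
        have := le_abs_self b
        linarith
      calc |y| ^ 2 ≤ |a| ^ 2 := pow_le_pow_left₀ (abs_nonneg _) h6 2
        _ = a ^ 2 := sq_abs a
  rw [mem_closedBall_zero_iff]
  refine le_of_sq_le_sq ?_ hR0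
  rw [norm_pt hu]
  rw [sq_abs] at h5
  rcases h5 with h5 | h5 <;> linarith

/-- The volume through the chords. -/
theorem volume_eq_chords {u : EuclideanSpace ℝ (Fin n)} (hu : ‖u‖ = 1)
    {K : Set (EuclideanSpace ℝ (Fin n))} (hK : MeasurableSet K) :
    volume K = ∫⁻ t : (ℝ ∙ u)ᗮ, volume (chord u K t) := by
  rw [← (mp_pt hu).measure_preimage hK.nullMeasurableSet,
    Measure.prod_apply ((mp_pt hu).measurable hK)]
  rfl

/-- The symmetral of a convex body has the same volume. -/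
theorem volume_st {u : EuclideanSpace ℝ (Fin n)} (hu : ‖u‖ = 1)
    {K : Set (EuclideanSpace ℝ (Fin n))} (hK : IsCompact K) (hc : Convex ℝ K) :
    volume (st u K) = volume K := by
  rw [volume_eq_chords hu (isCompact_st hu hK hc).measurableSet,
    volume_eq_chords hu hK.measurableSet]
  refine lintegral_congr fun t => ?_
  rcases chords hu hK hc t with ⟨h1, h2, -⟩ | ⟨a, b, hab, h1, h2, -⟩
  · rw [h1, h2]
  · rw [h1, h2, Real.volume_Icc, Real.volume_Icc]
    congr 1
    ring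

end MP_02d86d_gt
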