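import Pool.Agent.Work.MP_02d86d_gt.Est

/-! Hausdorff convergence of convex bodies, continuity and uniqueness for the distance `F`. -/

set_option autoImplicit false

namespace MP_02d86d_gt

open MeasureTheory Set Filter Topology Metric

variable {n : ℕ}

section Hausdorff

variable {E : Type} [NormedAddCommGroup E] [InnerProductSpace ℝ E]

omit [InnerProductSpace ℝ E] in
theorem hd_ne_top {s t : Set E} (hs : s.Nonempty) (ht : t.Nonempty) (bs : Bornology.IsBounded s)
    (bt : Bornology.IsBounded t) : hausdorffEDist s t ≠ ⊤ :=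
  hausdorffEDist_ne_top_of_nonempty_of_bounded hs ht bs bt

omit [InnerProductSpace ℝ E] in
/-- points of the limit are limits of points -/
theorem hd_exists {K : ℕ → Set E} {L : Set E} (hK : ∀ i, (K i).Nonempty) (hL : L.Nonempty)
    (bK : ∀ i, Bornology.IsBounded (K i)) (bL : Bornology.IsBounded L)
    (h : Tendsto (fun i => hausdorffDist (K i) L) atTop (𝓝 0)) {x : E} (hx : x ∈ L) :
    ∃ y : ℕ → E, (∀ i, y i ∈ K i) ∧ Tendsto y atTop (𝓝 x) := by
  have h1 : ∀ i : ℕ, ∃ y ∈ K i, dist y x < hausdorffDist (K i) L + 1 / ((i : ℝ) + 1) := fun i =>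
    exists_dist_lt_of_hausdorffDist_lt' hx (lt_add_of_pos_right _ (by positivity))
      (hd_ne_top (hK i) hL (bK i) bL)
  choose y hy hy' using h1
  refine ⟨y, hy, ?_⟩
  rw [tendsto_iff_dist_tendsto_zero]
  refine squeeze_zero (fun i => dist_nonneg) (fun i => (hy' i).le) ?_
  have h2 := h.add (tendsto_one_div_add_atTop_nhds_zero_nat (𝕜 := ℝ))
  rwa [add_zero] at h2

omit [InnerProductSpace ℝ E] in
/-- limits of points are points of the limit -/
theorem hd_mem {K : ℕ → Set E} {L : Set E} (hK : ∀ i, (K i).Nonempty) (hL : L.Nonempty)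
    (bK : ∀ i, Bornology.IsBounded (K i)) (bL : Bornology.IsBounded L) (cL : IsClosed L)
    (h : Tendsto (fun i => hausdorffDist (K i) L) atTop (𝓝 0)) {y : ℕ → E} {x : E}
    (hy : ∀ i, y i ∈ K i) (hx : Tendsto y atTop (𝓝 x)) : x ∈ L := by
  rw [cL.mem_iff_infDist_zero hL]
  have h1 : Tendsto (fun i => infDist (y i) L) atTop (𝓝 (infDist x L)) :=
    ((continuous_infDist_pt L).tendsto x).comp hx
  have h2 : Tendsto (fun i => infDist (y i) L) atTop (𝓝 0) :=
    squeeze_zero (fun i => infDist_nonneg)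
      (fun i => infDist_le_hausdorffDist_of_mem (hy i) (hd_ne_top (hK i) hL (bK i) bL)) h
  exact tendsto_nhds_unique h1 h2

omit [InnerProductSpace ℝ E] in
/-- outside of the limit -/
theorem hd_out {K : ℕ → Set E} {L : Set E} (hK : ∀ i, (K i).Nonempty) (hL : L.Nonempty)
    (bK : ∀ i, Bornology.IsBounded (K i)) (bL : Bornology.IsBounded L) (cL : IsClosed L)
    (h : Tendsto (fun i => hausdorffDist (K i) L) atTop (𝓝 0)) {x : E} (hx : x ∉ L) :
    ∀ᶠ i in atTop, x ∉ K i := by
  have h0 : 0 < infDist x L := (cL.notMem_iff_infDist_pos hL).1 hx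
  filter_upwards [h.eventually (gt_mem_nhds h0)] with i hi hxi
  exact absurd (infDist_le_hausdorffDist_of_mem hxi (hd_ne_top (hK i) hL (bK i) bL)) hi.not_ge

/-- a ball in `L` and a point of it outside of the convex set `K` -/
theorem hd_ball {K L : Set E} (hK : K.Nonempty) (hL : L.Nonempty) (cK : IsComplete K)
    (vK : Convex ℝ K) (bK : Bornology.IsBounded K) (bL : Bornology.IsBounded L) {x : E} {r : ℝ}
    (hr : 0 < r) (hx : closedBall x r ⊆ L) (hxK : x ∉ K) : r ≤ hausdorffDist K L := by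
  obtain ⟨v, hv, hv'⟩ := exists_norm_eq_iInf_of_complete_convex hK cK vK x
  rw [norm_eq_iInf_iff_real_inner_le_zero vK hv] at hv'
  have h0 : x - v ≠ 0 := sub_ne_zero.2 fun h => hxK (h ▸ hv)
  have h1 : 0 < ‖x - v‖ := norm_pos_iff.2 h0
  by_contra hlt
  rw [not_le] at hlt
  have hp : x + (r / ‖x - v‖) • (x - v) ∈ L := by
    apply hx
    rw [mem_closedBall, dist_eq_norm, add_sub_cancel_left, norm_smul, norm_div, norm_norm,
      Real.norm_eq_abs, abs_of_pos hr, div_mul_cancel₀ _ h1.ne']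
  obtain ⟨w, hw, hw'⟩ := exists_dist_lt_of_hausdorffDist_lt' hp hlt (hd_ne_top hK hL bK bL)
  have h2 : inner ℝ (x - v) ((x + (r / ‖x - v‖) • (x - v)) - w) =
      r * ‖x - v‖ + ‖x - v‖ ^ 2 - inner ℝ (x - v) (w - v) := by
    have h3 : (x + (r / ‖x - v‖) • (x - v)) - w = (r / ‖x - v‖) • (x - v) + (x - v) - (w - v) := by
      abel
    rw [h3, inner_sub_right, inner_add_right, inner_smul_right, real_inner_self_eq_norm_sq]
    field_simp
  have h4 := real_inner_le_norm (x - v) ((x + (r / ‖x - v‖) • (x - v)) - w)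
  have h5 : ‖(x + (r / ‖x - v‖) • (x - v)) - w‖ < r := by
    rw [dist_comm, dist_eq_norm] at hw'
    exact hw'
  have h6 := hv' w hw
  rw [h2] at h4
  nlinarith [mul_lt_mul_of_pos_left h5 h1]

/-- inside of the limit -/
theorem hd_in {K : ℕ → Set E} {L : Set E} (hK : ∀ i, (K i).Nonempty) (hL : L.Nonempty)
    (cK : ∀ i, IsComplete (K i)) (vK : ∀ i, Convex ℝ (K i))
    (bK : ∀ i, Bornology.IsBounded (K i)) (bL : Bornology.IsBounded L)
    (h : Tendsto (fun i => hausdorffDist (K i) L) atTop (𝓝 0)) {x : E} (hx : x ∈ interior L) :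
    ∀ᶠ i in atTop, x ∈ K i := by
  obtain ⟨r, hr, hr'⟩ := (nhds_basis_closedBall.mem_iff).1 (mem_interior_iff_mem_nhds.1 hx)
  filter_upwards [h.eventually (gt_mem_nhds hr)] with i hi
  by_contra hxi
  exact absurd (hd_ball (hK i) hL (cK i) (vK i) (bK i) bL hr hr' hxi) hi.not_ge

end Hausdorff

/-- Blaschke's selection theorem -/
theorem blaschke {R : ℝ} (K : ℕ → Set (EuclideanSpace ℝ (Fin n))) (cK : ∀ i, IsCompact (K i))
    (vK : ∀ i, Convex ℝ (K i)) (hK : ∀ i, (K i).Nonempty) (bK : ∀ i, K i ⊆ closedBall 0 R) :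
    ∃ (L : Set (EuclideanSpace ℝ (Fin n))) (φ : ℕ → ℕ), StrictMono φ ∧ IsCompact L ∧
      Convex ℝ L ∧ L.Nonempty ∧ L ⊆ closedBall 0 R ∧
      Tendsto (fun i => hausdorffDist (K (φ i)) L) atTop (𝓝 0) := by
  classical
  let A : ℕ → TopologicalSpace.NonemptyCompacts (EuclideanSpace ℝ (Fin n)) := fun i =>
    ⟨⟨K i, cK i⟩, hK i⟩
  have h1 : TotallyBounded {B : TopologicalSpace.NonemptyCompacts (EuclideanSpace ℝ (Fin n)) |
      (B : Set (EuclideanSpace ℝ (Fin n))) ⊆ closedBall 0 R} :=
    TopologicalSpace.NonemptyCompacts.totallyBounded_subsets_of_totallyBounded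
      (isCompact_closedBall 0 R).totallyBounded
  have h2 : IsCompact (closure {B : TopologicalSpace.NonemptyCompacts
      (EuclideanSpace ℝ (Fin n)) | (B : Set (EuclideanSpace ℝ (Fin n))) ⊆ closedBall 0 R}) :=
    h1.closure.isCompact_of_isClosed isClosed_closure
  obtain ⟨L, -, φ, hφ, hL⟩ := h2.tendsto_subseq (x := A) fun i => subset_closure (bK i)
  have h3 : Tendsto (fun i => hausdorffDist (K (φ i)) (L : Set (EuclideanSpace ℝ (Fin n))))
      atTop (𝓝 0) := by
    have := tendsto_iff_dist_tendsto_zero.1 hL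
    exact this
  have bK' : ∀ i, Bornology.IsBounded (K (φ i)) := fun i => (cK _).isBounded
  have bL : Bornology.IsBounded (L : Set (EuclideanSpace ℝ (Fin n))) := L.isCompact.isBounded
  refine ⟨L, φ, hφ, L.isCompact, ?_, L.nonempty, ?_, h3⟩
  · intro x hx y hy a b ha hb hab
    obtain ⟨x', hx', hx''⟩ := hd_exists (fun i => hK (φ i)) L.nonempty bK' bL h3 hx
    obtain ⟨y', hy', hy''⟩ := hd_exists (fun i => hK (φ i)) L.nonempty bK' bL h3 hy
    exact hd_mem (fun i => hK (φ i)) L.nonempty bK' bL L.isCompact.isClosed h3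
      (fun i => vK (φ i) (hx' i) (hy' i) ha hb hab)
      ((hx''.const_smul a).add (hy''.const_smul b))
  · intro x hx
    obtain ⟨x', hx', hx''⟩ := hd_exists (fun i => hK (φ i)) L.nonempty bK' bL h3 hx
    exact isClosed_closedBall.mem_of_tendsto hx'' (Eventually.of_forall fun i => bK _ (hx' i))

section Conv

variable {K : ℕ → Set (EuclideanSpace ℝ (Fin n))} {L : Set (EuclideanSpace ℝ (Fin n))}

/-- the indicator functions converge almost everywhere -/
theorem ae_mem_iff (hK : ∀ i, (K i).Nonempty) (hL : L.Nonempty) (cK : ∀ i, IsCompact (K i))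
    (cL : IsCompact L) (vK : ∀ i, Convex ℝ (K i)) (vL : Convex ℝ L)
    (h : Tendsto (fun i => hausdorffDist (K i) L) atTop (𝓝 0)) :
    ∀ᵐ x, ∀ᶠ i in atTop, x ∈ K i ↔ x ∈ L := by
  have h1 : ∀ᵐ x, x ∉ frontier L := by
    rw [ae_iff]
    simp only [not_not]
    exact vL.addHaar_frontier volume
  filter_upwards [h1] with x hx
  by_cases hxL : x ∈ L
  · have h2 : x ∈ interior L := by
      by_contra h3
      exact hx ⟨subset_closure hxL, h3⟩
    filter_upwards [hd_in hK hL (fun i => (cK i).isComplete) vK (fun i => (cK i).isBounded)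
      cL.isBounded h h2] with i hi
    exact ⟨fun _ => hxL, fun _ => hi⟩
  · filter_upwards [hd_out hK hL (fun i => (cK i).isBounded) cL.isBounded cL.isClosed h hxL]
      with i hi
    exact ⟨fun h => absurd h hi, fun h => absurd h hxL⟩

theorem tendsto_volume {R : ℝ} (hK : ∀ i, (K i).Nonempty) (hL : L.Nonempty)
    (cK : ∀ i, IsCompact (K i)) (cL : IsCompact L) (vK : ∀ i, Convex ℝ (K i)) (vL : Convex ℝ L)
    (bK : ∀ i, K i ⊆ closedBall 0 R)
    (h : Tendsto (fun i => hausdorffDist (K i) L) atTop (𝓝 0)) :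
    Tendsto (fun i => volume (K i)) atTop (𝓝 (volume L)) :=
  tendsto_measure_of_ae_tendsto_indicator atTop cL.measurableSet (fun i => (cK i).measurableSet)
    (B := closedBall 0 R) measurableSet_closedBall measure_closedBall_lt_top.ne
    (Eventually.of_forall bK) (ae_mem_iff hK hL cK cL vK vL h)

end Conv

/-! ### the weight -/

theorem wt_pos (ξ : EuclideanSpace ℝ (Fin n)) : 0 < wt ξ :=
  Real.rpow_pos_of_pos (by positivity) _

theorem wt_nonneg (ξ : EuclideanSpace ℝ (Fin n)) : 0 ≤ wt ξ := (wt_pos ξ).le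

theorem continuous_wt : Continuous (wt : EuclideanSpace ℝ (Fin n) → ℝ) := by
  unfold wt
  refine Continuous.rpow_const (by fun_prop) fun ξ => Or.inl ?_
  have := norm_nonneg ξ
  positivity

theorem wt_map (ψ : EuclideanSpace ℝ (Fin n) ≃ₗᵢ[ℝ] EuclideanSpace ℝ (Fin n))
    (ξ : EuclideanSpace ℝ (Fin n)) : wt (ψ ξ) = wt ξ := by
  unfold wt
  rw [ψ.norm_map]

theorem integrable_wt : Integrable (wt : EuclideanSpace ℝ (Fin n) → ℝ) := by
  unfold wt
  refine integrable_one_add_norm ?_
  simp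

theorem integrable_sq_wt : Integrable fun ξ : EuclideanSpace ℝ (Fin n) => ‖ξ‖ ^ 2 * wt ξ := by
  have h1 : Integrable fun ξ : EuclideanSpace ℝ (Fin n) => (1 + ‖ξ‖) ^ (-((n : ℝ) + 1)) :=
    integrable_one_add_norm (by simp)
  refine h1.mono' ((continuous_norm.pow 2).mul continuous_wt).aestronglyMeasurable
    (Eventually.of_forall fun ξ => ?_)
  have h0 := norm_nonneg ξ
  have h2 : (0 : ℝ) < 1 + ‖ξ‖ := by positivity
  rw [Real.norm_eq_abs, abs_of_nonneg (mul_nonneg (by positivity) (wt_nonneg ξ))]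
  have h3 : (1 + ‖ξ‖) ^ (-((n : ℝ) + 1)) = (1 + ‖ξ‖) ^ (2 : ℕ) * wt ξ := by
    unfold wt
    rw [← Real.rpow_natCast, ← Real.rpow_add h2]
    congr 1
    push_cast
    ring
  rw [h3]
  refine mul_le_mul_of_nonneg_right ?_ (wt_nonneg ξ)
  exact pow_le_pow_left₀ h0 (by linarith) 2

/-! ### the Fourier transform -/

section Th

variable {K L Z : Set (EuclideanSpace ℝ (Fin n))}

theorem continuous_Th (hK : IsCompact K) : Continuous (Th K) := by
  have : IsFiniteMeasure (volume.restrict K) := isFiniteMeasure_restrict.2 hK.measure_lt_top.ne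
  exact continuous_charFun

theorem norm_Th_le (hK : IsCompact K) (ξ : EuclideanSpace ℝ (Fin n)) :
    ‖Th K ξ‖ ≤ (volume K).toReal := by
  have : IsFiniteMeasure (volume.restrict K) := isFiniteMeasure_restrict.2 hK.measure_lt_top.ne
  have h1 := norm_charFun_le (μ := volume.restrict K) ξ
  rwa [measureReal_restrict_apply_univ] at h1

theorem norm_Th_le' {R : ℝ} (hK : IsCompact K) (bK : K ⊆ closedBall 0 R)
    (ξ : EuclideanSpace ℝ (Fin n)) :
    ‖Th K ξ‖ ≤ (volume (closedBall (0 : EuclideanSpace ℝ (Fin n)) R)).toReal :=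
  (norm_Th_le hK ξ).trans (ENNReal.toReal_mono measure_closedBall_lt_top.ne (measure_mono bK))

theorem Th_image (ψ : EuclideanSpace ℝ (Fin n) ≃ₗᵢ[ℝ] EuclideanSpace ℝ (Fin n))
    (K : Set (EuclideanSpace ℝ (Fin n))) (ξ : EuclideanSpace ℝ (Fin n)) :
    Th (ψ '' K) (ψ ξ) = Th K ξ := by
  rw [Th_eq, Th_eq]
  have h1 := ψ.measurePreserving
  have h2 := h1.setIntegral_image_emb ψ.toHomeomorph.measurableEmbedding
    (fun x => Complex.exp (inner ℝ x (ψ ξ) * Complex.I)) K
  rw [h2]
  simp only [LinearIsometryEquiv.inner_map_map]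

theorem F_nonneg (K L : Set (EuclideanSpace ℝ (Fin n))) : 0 ≤ F K L :=
  integral_nonneg fun ξ => mul_nonneg (by positivity) (wt_nonneg ξ)

theorem integrable_F (hK : IsCompact K) (hL : IsCompact L) :
    Integrable fun ξ => ‖Th K ξ - Th L ξ‖ ^ 2 * wt ξ := by
  have hc : Continuous fun ξ => ‖Th K ξ - Th L ξ‖ ^ 2 * wt ξ :=
    (((continuous_Th hK).sub (continuous_Th hL)).norm.pow 2).mul continuous_wt
  refine (integrable_wt.const_mul (((volume K).toReal + (volume L).toReal) ^ 2)).mono'
    hc.aestronglyMeasurable (Eventually.of_forall fun ξ => ?_)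
  rw [Real.norm_eq_abs, abs_of_nonneg (mul_nonneg (by positivity) (wt_nonneg ξ))]
  refine mul_le_mul_of_nonneg_right (pow_le_pow_left₀ (norm_nonneg _) ?_ 2) (wt_nonneg ξ)
  exact (norm_sub_le _ _).trans (add_le_add (norm_Th_le hK ξ) (norm_Th_le hL ξ))

theorem F_le' {R : ℝ} (hK : IsCompact K) (hL : IsCompact L) (bK : K ⊆ closedBall 0 R)
    (bL : L ⊆ closedBall 0 R) :
    F K L ≤ (2 * (volume (closedBall (0 : EuclideanSpace ℝ (Fin n)) R)).toReal) ^ 2 *
      ∫ ξ : EuclideanSpace ℝ (Fin n), wt ξ := by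
  rw [← integral_const_mul]
  refine integral_mono (integrable_F hK hL) (integrable_wt.const_mul _) fun ξ => ?_
  refine mul_le_mul_of_nonneg_right (pow_le_pow_left₀ (norm_nonneg _) ?_ 2) (wt_nonneg ξ)
  rw [two_mul]
  exact (norm_sub_le _ _).trans (add_le_add (norm_Th_le' hK bK ξ) (norm_Th_le' hL bL ξ))

theorem F_le (R : ℝ) : ∃ B : ℝ, ∀ K Z : Set (EuclideanSpace ℝ (Fin n)), IsCompact K →
    IsCompact Z → K ⊆ closedBall 0 R → Z ⊆ closedBall 0 R → F K Z ≤ B :=
  ⟨_, fun _ _ hK hZ bK bZ => F_le' hK hZ bK bZ⟩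

theorem F_comm (K L : Set (EuclideanSpace ℝ (Fin n))) : F K L = F L K := by
  unfold F
  simp only [norm_sub_rev]

theorem F_image (ψ : EuclideanSpace ℝ (Fin n) ≃ₗᵢ[ℝ] EuclideanSpace ℝ (Fin n))
    (K L : Set (EuclideanSpace ℝ (Fin n))) : F (ψ '' K) (ψ '' L) = F K L := by
  unfold F
  have h2 := ψ.measurePreserving.integral_comp ψ.toHomeomorph.measurableEmbedding
    (fun ξ => ‖Th (ψ '' K) ξ - Th (ψ '' L) ξ‖ ^ 2 * wt ξ)
  rw [← h2]
  simp only [Th_image, wt_map]

/-- continuity of `F` along Hausdorff convergence -/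
theorem tendsto_F {K : ℕ → Set (EuclideanSpace ℝ (Fin n))} {R : ℝ} (hK : ∀ i, (K i).Nonempty)
    (hL : L.Nonempty) (cK : ∀ i, IsCompact (K i)) (cL : IsCompact L) (vK : ∀ i, Convex ℝ (K i))
    (vL : Convex ℝ L) (bK : ∀ i, K i ⊆ closedBall 0 R) (hZ : IsCompact Z)
    (h : Tendsto (fun i => hausdorffDist (K i) L) atTop (𝓝 0)) :
    Tendsto (fun i => F (K i) Z) atTop (𝓝 (F L Z)) := by
  have h1 : ∀ ξ, Tendsto (fun i => Th (K i) ξ) atTop (𝓝 (Th L ξ)) := by
    intro ξ
    have hi : ∀ A : Set (EuclideanSpace ℝ (Fin n)), IsCompact A → Th A ξ =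
        ∫ x, A.indicator (fun x => Complex.exp (inner ℝ x ξ * Complex.I)) x := fun A hA => by
      rw [Th_eq, integral_indicator hA.measurableSet]
    rw [hi L cL]
    simp only [fun i => hi (K i) (cK i)]
    refine tendsto_integral_of_dominated_convergence
      ((closedBall (0 : EuclideanSpace ℝ (Fin n)) R).indicator fun _ => (1 : ℝ)) ?_ ?_ ?_ ?_
    · intro i
      refine AEStronglyMeasurable.indicator ?_ (cK i).measurableSet
      exact Continuous.aestronglyMeasurable (by fun_prop)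
    · exact (integrable_indicator_iff measurableSet_closedBall).2
        (integrableOn_const measure_closedBall_lt_top.ne)
    · intro i
      refine Eventually.of_forall fun x => ?_
      by_cases hx : x ∈ K i
      · rw [indicator_of_mem hx, indicator_of_mem (bK i hx), Complex.norm_exp_ofReal_mul_I]
      · rw [indicator_of_notMem hx, norm_zero]
        exact indicator_nonneg (fun _ _ => zero_le_one) x
    · filter_upwards [ae_mem_iff hK hL cK cL vK vL h] with x hx
      refine tendsto_const_nhds.congr' ?_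
      filter_upwards [hx] with i hi
      by_cases hxL : x ∈ L
      · rw [indicator_of_mem hxL, indicator_of_mem (hi.2 hxL)]
      · rw [indicator_of_notMem hxL, indicator_of_notMem fun h => hxL (hi.1 h)]
  unfold F
  refine tendsto_integral_of_dominated_convergence (fun ξ =>
    ((volume (closedBall (0 : EuclideanSpace ℝ (Fin n)) R)).toReal + (volume Z).toReal) ^ 2 *
      wt ξ) (fun i => (integrable_F (cK i) hZ).aestronglyMeasurable)
    (integrable_wt.const_mul _) (fun i => Eventually.of_forall fun ξ => ?_)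
    (Eventually.of_forall fun ξ => ?_)
  · rw [Real.norm_eq_abs, abs_of_nonneg (mul_nonneg (by positivity) (wt_nonneg ξ))]
    refine mul_le_mul_of_nonneg_right (pow_le_pow_left₀ (norm_nonneg _) ?_ 2) (wt_nonneg ξ)
    exact (norm_sub_le _ _).trans (add_le_add (norm_Th_le' (cK i) (bK i) ξ) (norm_Th_le hZ ξ))
  · exact (((h1 ξ).sub tendsto_const_nhds).norm.pow 2).mul tendsto_const_nhds

/-! ### uniqueness -/

private theorem sub_of_restrict (vL : Convex ℝ K) (h0 : volume K ≠ 0)
    (cL : IsCompact L) (h : volume.restrict K = volume.restrict L) : K ⊆ L := by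
  have hi : (interior K).Nonempty := by
    rw [nonempty_iff_ne_empty]
    intro he
    apply h0
    have h1 : K ⊆ frontier K := by
      intro x hx
      refine ⟨subset_closure hx, ?_⟩
      rw [he]
      exact fun h => h
    exact measure_mono_null h1 (vL.addHaar_frontier volume)
  have h2 : interior K ⊆ L := by
    intro x hx
    by_contra hxL
    have ho : IsOpen (interior K \ L) := isOpen_interior.sdiff cL.isClosed
    have h3 : 0 < volume (interior K \ L) := ho.measure_pos volume ⟨x, hx, hxL⟩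
    have h4 : volume.restrict K (interior K \ L) = volume (interior K \ L) := by
      rw [Measure.restrict_apply ho.measurableSet, inter_eq_left.2]
      exact sdiff_subset.trans interior_subset
    have h5 : volume.restrict L (interior K \ L) = 0 := by
      rw [Measure.restrict_apply ho.measurableSet, sdiff_inter_self, measure_empty]
    rw [← h4, h, h5] at h3
    exact lt_irrefl _ h3
  have h3 : K ⊆ closure (interior K) := by
    rw [vL.closure_interior_eq_closure_of_nonempty_interior hi]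
    exact subset_closure
  exact h3.trans (closure_minimal h2 cL.isClosed)

theorem eq_of_F (cK : IsCompact K) (cL : IsCompact L) (vK : Convex ℝ K) (vL : Convex ℝ L)
    (hK : volume K ≠ 0) (hL : volume L ≠ 0) (h : F K L = 0) : K = L := by
  have : IsFiniteMeasure (volume.restrict K) := isFiniteMeasure_restrict.2 cK.measure_lt_top.ne
  have : IsFiniteMeasure (volume.restrict L) := isFiniteMeasure_restrict.2 cL.measure_lt_top.ne
  have h1 : (fun ξ => ‖Th K ξ - Th L ξ‖ ^ 2 * wt ξ) =ᵐ[volume] 0 :=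
    (integral_eq_zero_iff_of_nonneg (fun ξ => mul_nonneg (by positivity) (wt_nonneg ξ))
      (integrable_F cK cL)).1 h
  have hc : Continuous fun ξ => ‖Th K ξ - Th L ξ‖ ^ 2 * wt ξ :=
    (((continuous_Th cK).sub (continuous_Th cL)).norm.pow 2).mul continuous_wt
  have h2 := (Continuous.ae_eq_iff_eq volume hc continuous_const).1 h1
  have h3 : Th K = Th L := by
    funext ξ
    have h4 := congrFun h2 ξ
    have h5 : ‖Th K ξ - Th L ξ‖ ^ 2 * wt ξ = 0 := h4
    have h6 := (mul_eq_zero.1 h5).resolve_right (wt_pos ξ).ne'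
    have h7 : ‖Th K ξ - Th L ξ‖ = 0 := pow_eq_zero_iff (two_ne_zero) |>.1 h6
    exact sub_eq_zero.1 (norm_eq_zero.1 h7)
  have h4 : volume.restrict K = volume.restrict L := Measure.ext_of_charFun h3
  exact (sub_of_restrict vK hK cL h4).antisymm (sub_of_restrict vL hL cK h4.symm)

end Th

end MP_02d86d_gt
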