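import Mathlib

/-!
# The algebra of the patch lemma (MP_02d86d_gt, Theorem B)

If the ellipsoid `c + T(B)` touches the sphere of radius `r` at all points of a patch of the
sphere (`n ≥ 2`), then `c = 0` and `T(B)` contains the ball of radius `r`.
-/

set_option autoImplicit false

namespace MP_02d86d_gt

open Metric

/-- A real polynomial of degree at most four vanishing at `0, ±s, ±2s` is zero. -/
theorem quartic_zero {e0 e1 e2 e3 e4 s : ℝ} (hs : 0 < s)
    (h : ∀ t : ℝ, |t| ≤ 2 * s → e0 + e1 * t + e2 * t ^ 2 + e3 * t ^ 3 + e4 * t ^ 4 = 0) :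
    e0 = 0 ∧ e1 = 0 ∧ e2 = 0 ∧ e3 = 0 ∧ e4 = 0 := by
  have h0 := h 0 (by simp [hs.le])
  have h1 := h s (by rw [abs_of_pos hs]; linarith)
  have h2 := h (-s) (by rw [abs_neg, abs_of_pos hs]; linarith)
  have h3 := h (2 * s) (by rw [abs_of_pos (by linarith)])
  have h4 := h (-(2 * s)) (by rw [abs_neg, abs_of_pos (by linarith)])
  have e0z : e0 = 0 := by simpa using h0
  subst e0z
  have a4 : e4 * s ^ 4 = 0 := by linarith
  have a2 : e2 * s ^ 2 = 0 := by linarith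
  have a3 : e3 * s ^ 3 = 0 := by linarith
  have a1 : e1 * s = 0 := by linarith
  have hs' := hs.ne'
  refine ⟨rfl, ?_, ?_, ?_, ?_⟩
  · exact (mul_eq_zero.1 a1).resolve_right hs'
  · exact (mul_eq_zero.1 a2).resolve_right (pow_ne_zero _ hs')
  · exact (mul_eq_zero.1 a3).resolve_right (pow_ne_zero _ hs')
  · exact (mul_eq_zero.1 a4).resolve_right (pow_ne_zero _ hs')

variable {n : ℕ}

/-- The local identity on a ball around `w0`. -/
theorem patch_local {r : ℝ} (hr : 0 < r) (c : EuclideanSpace ℝ (Fin n))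
    (S : EuclideanSpace ℝ (Fin n) →L[ℝ] EuclideanSpace ℝ (Fin n))
    {w0 : EuclideanSpace ℝ (Fin n)} (hw0 : ‖w0‖ = r) {d : ℝ} (hd : 0 < d)
    (h : ∀ w, ‖w‖ = r → ‖w - w0‖ < d → (inner ℝ c w) + ‖S w‖ = r * r) :
    ∃ δ : ℝ, 0 < δ ∧ ∀ x, ‖x - w0‖ < δ → (inner ℝ c x) + ‖S x‖ = r * ‖x‖ := by
  have hc : ContinuousAt (fun x : EuclideanSpace ℝ (Fin n) => (r / ‖x‖) • x) w0 := by
    have h1 : ContinuousAt (fun x : EuclideanSpace ℝ (Fin n) => r / ‖x‖) w0 :=
      continuousAt_const.div continuous_norm.continuousAt (by rw [hw0]; exact hr.ne')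
    exact h1.smul continuousAt_id
  have hval : (r / ‖w0‖) • w0 = w0 := by rw [hw0, div_self hr.ne', one_smul]
  rw [Metric.continuousAt_iff] at hc
  obtain ⟨δ, hδ, hδ'⟩ := hc d hd
  refine ⟨min δ r, lt_min hδ hr, fun x hx => ?_⟩
  have hx1 : ‖x - w0‖ < δ := lt_of_lt_of_le hx (min_le_left _ _)
  have hx2 : ‖x - w0‖ < r := lt_of_lt_of_le hx (min_le_right _ _)
  have hxn : 0 < ‖x‖ := by
    have : ‖w0‖ - ‖x - w0‖ ≤ ‖x‖ := by
      have := norm_sub_norm_le w0 (w0 - x)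
      rw [sub_sub_cancel, norm_sub_rev w0 x] at this
      exact this
    linarith [hw0]
  have hd1 := hδ' (x := x) (by rw [dist_eq_norm]; exact hx1)
  rw [hval, dist_eq_norm] at hd1
  have hnorm : ‖(r / ‖x‖) • x‖ = r := by
    rw [norm_smul, Real.norm_of_nonneg (by positivity)]
    field_simp
  have key := h _ hnorm hd1
  rw [inner_smul_right, map_smul, norm_smul, Real.norm_of_nonneg (by positivity : 0 ≤ r / ‖x‖),
    ← mul_add] at key
  have : (r / ‖x‖) * ((inner ℝ c x) + ‖S x‖) = (r / ‖x‖) * (r * ‖x‖) := by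
    rw [key]; field_simp
  exact mul_left_cancel₀ (by positivity) this

/-- In dimension at least two there is a nonzero vector orthogonal to `c`. -/
theorem exists_orth (hn : 2 ≤ n) (c : EuclideanSpace ℝ (Fin n)) :
    ∃ v : EuclideanSpace ℝ (Fin n), v ≠ 0 ∧ (inner ℝ c v) = 0 := by
  by_contra hcon
  push Not at hcon
  have hker : LinearMap.ker (innerSL ℝ c).toLinearMap = ⊥ := by
    rw [LinearMap.ker_eq_bot']
    intro v hv
    by_contra hv0
    exact hcon v hv0 hv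
  have h1 := LinearMap.finrank_le_finrank_of_injective (LinearMap.ker_eq_bot.1 hker)
  rw [finrank_euclideanSpace_fin, Module.finrank_self] at h1
  omega

theorem patch_center (hn : 2 ≤ n) {r : ℝ} (hr : 0 < r) (c : EuclideanSpace ℝ (Fin n))
    (S : EuclideanSpace ℝ (Fin n) →L[ℝ] EuclideanSpace ℝ (Fin n))
    {w0 : EuclideanSpace ℝ (Fin n)} {δ : ℝ} (hδ : 0 < δ)
    (h : ∀ x, ‖x - w0‖ < δ → (inner ℝ c x) + ‖S x‖ = r * ‖x‖) : c = 0 := by
  by_contra hc0
  have hcn : 0 < ‖c‖ := norm_pos_iff.2 hc0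
  -- a point of the ball with nonzero inner product with `c`
  obtain ⟨x0, hx0, hxc⟩ : ∃ x0, ‖x0 - w0‖ < δ ∧ (inner ℝ c x0) ≠ 0 := by
    by_cases h0 : (inner ℝ c w0) = 0
    · refine ⟨w0 + (δ / (2 * ‖c‖)) • c, ?_, ?_⟩
      · rw [add_sub_cancel_left, norm_smul, Real.norm_of_nonneg (by positivity)]
        have : δ / (2 * ‖c‖) * ‖c‖ = δ / 2 := by field_simp
        rw [this]; linarith
      · rw [inner_add_right, h0, inner_smul_right, real_inner_self_eq_norm_sq]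
        positivity
    · exact ⟨w0, by simpa using hδ, h0⟩
  obtain ⟨v, hv0, hcv⟩ := exists_orth hn c
  have hvn : 0 < ‖v‖ := norm_pos_iff.2 hv0
  -- the points `x0 + t v`
  set δ' := δ - ‖x0 - w0‖ with hδ'
  have hδ'0 : 0 < δ' := by linarith
  set s := δ' / (4 * ‖v‖) with hs
  have hs0 : 0 < s := by positivity
  set a := (inner ℝ c x0) with ha
  have hline : ∀ t : ℝ, |t| ≤ 2 * s →
      2 * r * a * ‖x0 + t • v‖ = r ^ 2 * ‖x0 + t • v‖ ^ 2 + a ^ 2 - ‖S (x0 + t • v)‖ ^ 2 := by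
    intro t ht
    have hin : ‖(x0 + t • v) - w0‖ < δ := by
      have e : (x0 + t • v) - w0 = (x0 - w0) + t • v := by abel
      rw [e]
      refine lt_of_le_of_lt (norm_add_le _ _) ?_
      rw [norm_smul, Real.norm_eq_abs]
      have : |t| * ‖v‖ ≤ 2 * s * ‖v‖ := mul_le_mul_of_nonneg_right ht hvn.le
      have e2 : 2 * s * ‖v‖ = δ' / 2 := by rw [hs]; field_simp; ring
      linarith
    have hk := h _ hin
    rw [inner_add_right, inner_smul_right, hcv, mul_zero, add_zero] at hk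
    have hk' : ‖S (x0 + t • v)‖ = r * ‖x0 + t • v‖ - a := by linarith
    rw [hk']; ring
  -- expansions
  have hx : ∀ t : ℝ, ‖x0 + t • v‖ ^ 2 = ‖x0‖ ^ 2 + 2 * (inner ℝ x0 v) * t + ‖v‖ ^ 2 * t ^ 2 := by
    intro t
    rw [norm_add_sq_real, inner_smul_right, norm_smul, Real.norm_eq_abs, mul_pow, sq_abs]
    ring
  have hS : ∀ t : ℝ, ‖S (x0 + t • v)‖ ^ 2 =
      ‖S x0‖ ^ 2 + 2 * (inner ℝ (S x0) (S v)) * t + ‖S v‖ ^ 2 * t ^ 2 := by
    intro t
    rw [map_add, map_smul, norm_add_sq_real, inner_smul_right, norm_smul, Real.norm_eq_abs,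
      mul_pow, sq_abs]
    ring
  set q0 := r ^ 2 * ‖x0‖ ^ 2 + a ^ 2 - ‖S x0‖ ^ 2 with hq0
  set q1 := 2 * (r ^ 2 * (inner ℝ x0 v) - (inner ℝ (S x0) (S v))) with hq1
  set q2 := r ^ 2 * ‖v‖ ^ 2 - ‖S v‖ ^ 2 with hq2
  set A := (2 * r * a) ^ 2 * ‖x0‖ ^ 2 with hA
  set B := (2 * r * a) ^ 2 * (2 * (inner ℝ x0 v)) with hB
  set C := (2 * r * a) ^ 2 * ‖v‖ ^ 2 with hC
  have hpoly : ∀ t : ℝ, |t| ≤ 2 * s →
      (A - q0 ^ 2) + (B - 2 * q0 * q1) * t + (C - (q1 ^ 2 + 2 * q0 * q2)) * t ^ 2 +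
        (-(2 * q1 * q2)) * t ^ 3 + (-(q2 ^ 2)) * t ^ 4 = 0 := by
    intro t ht
    have e1 := hline t ht
    have e2 : 2 * r * a * ‖x0 + t • v‖ = q0 + q1 * t + q2 * t ^ 2 := by
      rw [e1, hx, hS, hq0, hq1, hq2]; ring
    have e3 : (2 * r * a) ^ 2 * ‖x0 + t • v‖ ^ 2 = (q0 + q1 * t + q2 * t ^ 2) ^ 2 := by
      rw [← e2]; ring
    rw [hx] at e3
    rw [hA, hB, hC]
    linear_combination e3
  obtain ⟨z0, z1, z2, -, z4⟩ := quartic_zero hs0 hpoly
  have q2z : q2 = 0 := by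
    have : q2 ^ 2 = 0 := by linarith
    exact pow_eq_zero_iff (two_ne_zero) |>.1 this
  rw [q2z] at z2
  -- the discriminant vanishes
  have hdisc : B ^ 2 = 4 * A * C := by
    have b1 : B = 2 * q0 * q1 := by linarith
    have b2 : A = q0 ^ 2 := by linarith
    have b3 : C = q1 ^ 2 := by linarith
    rw [b1, b2, b3]; ring
  have hra : (2 * r * a) ^ 2 ≠ 0 := pow_ne_zero _ (by positivity)
  have hCS : (inner ℝ x0 v) ^ 2 = ‖x0‖ ^ 2 * ‖v‖ ^ 2 := by
    have : ((2 * r * a) ^ 2) ^ 2 * (4 * (inner ℝ x0 v) ^ 2) =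
        ((2 * r * a) ^ 2) ^ 2 * (4 * (‖x0‖ ^ 2 * ‖v‖ ^ 2)) := by
      have := hdisc
      rw [hA, hB, hC] at this
      linear_combination this
    have h4 := mul_left_cancel₀ (pow_ne_zero 2 hra) this
    linarith
  -- equality in Cauchy-Schwarz: `x0` is parallel to `v`, contradiction
  have hx00 : x0 ≠ 0 := by
    rintro rfl
    exact hxc (by rw [ha, inner_zero_right])
  have habs : |(inner ℝ x0 v)| = ‖x0‖ * ‖v‖ := by
    rw [← abs_of_nonneg (by positivity : 0 ≤ ‖x0‖ * ‖v‖), ← sq_eq_sq_iff_abs_eq_abs]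
    rw [hCS]; ring
  have hpar := (abs_real_inner_div_norm_mul_norm_eq_one_iff x0 v).1 (by
    rw [abs_div, habs, abs_of_nonneg (by positivity : 0 ≤ ‖x0‖ * ‖v‖)]
    have : ‖x0‖ * ‖v‖ ≠ 0 := by
      have := norm_pos_iff.2 hx00
      positivity
    exact div_self this)
  obtain ⟨-, k, hk, rfl⟩ := hpar
  rw [inner_smul_right, ← ha] at hcv
  rcases mul_eq_zero.1 hcv with h1 | h1
  · exact hk h1
  · exact hxc h1

theorem patch_isometry {r : ℝ}
    (S : EuclideanSpace ℝ (Fin n) →L[ℝ] EuclideanSpace ℝ (Fin n))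
    {w0 : EuclideanSpace ℝ (Fin n)} {δ : ℝ} (hδ : 0 < δ)
    (h : ∀ x, ‖x - w0‖ < δ → ‖S x‖ = r * ‖x‖) (x : EuclideanSpace ℝ (Fin n)) :
    ‖S x‖ ^ 2 = r ^ 2 * ‖x‖ ^ 2 := by
  set t := δ / (2 * (‖x‖ + 1)) with ht
  have hx1 : 0 < ‖x‖ + 1 := by positivity
  have ht0 : 0 < t := by positivity
  have htx : ‖t • x‖ < δ := by
    rw [norm_smul, Real.norm_of_nonneg ht0.le]
    have : t * ‖x‖ ≤ t * (‖x‖ + 1) := by
      apply mul_le_mul_of_nonneg_left _ ht0.le; linarith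
    have e : t * (‖x‖ + 1) = δ / 2 := by rw [ht]; field_simp
    linarith
  have h1 := h (w0 + t • x) (by rw [add_sub_cancel_left]; exact htx)
  have h2 := h (w0 - t • x) (by
    rw [sub_sub_cancel_left, norm_neg]; exact htx)
  have h0 := h w0 (by simpa using hδ)
  have p1 := parallelogram_law_with_norm ℝ w0 (t • x)
  have p2 := parallelogram_law_with_norm ℝ (S w0) (S (t • x))
  rw [← map_add, ← map_sub, h1, h2, h0] at p2
  have e1 : ‖t • x‖ = t * ‖x‖ := by rw [norm_smul, Real.norm_of_nonneg ht0.le]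
  have e2 : ‖S (t • x)‖ = t * ‖S x‖ := by
    rw [map_smul, norm_smul, Real.norm_of_nonneg ht0.le]
  rw [e2] at p2
  rw [e1] at p1
  have key : t ^ 2 * ‖S x‖ ^ 2 = t ^ 2 * (r ^ 2 * ‖x‖ ^ 2) := by nlinarith [p1, p2]
  exact mul_left_cancel₀ (pow_ne_zero 2 ht0.ne') key

/-- **The algebra of the patch lemma.** -/
theorem patch_alg (hn : 2 ≤ n) {r : ℝ} (hr : 0 < r) (c : EuclideanSpace ℝ (Fin n))
    (T : EuclideanSpace ℝ (Fin n) →L[ℝ] EuclideanSpace ℝ (Fin n))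
    {w0 : EuclideanSpace ℝ (Fin n)} (hw0 : ‖w0‖ = r) {d : ℝ} (hd : 0 < d)
    (h : ∀ w, ‖w‖ = r → ‖w - w0‖ < d →
      inner ℝ c w + ‖(ContinuousLinearMap.adjoint T) w‖ = r * r) :
    c = 0 ∧ Metric.closedBall (0 : EuclideanSpace ℝ (Fin n)) r ⊆ T '' Metric.closedBall 0 1 := by
  obtain ⟨δ, hδ, hloc⟩ := patch_local hr c (ContinuousLinearMap.adjoint T) hw0 hd h
  have hc := patch_center hn hr c (ContinuousLinearMap.adjoint T) hδ hloc
  refine ⟨hc, ?_⟩
  subst hc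
  have hiso : ∀ x, ‖(ContinuousLinearMap.adjoint T) x‖ ^ 2 = r ^ 2 * ‖x‖ ^ 2 :=
    patch_isometry (ContinuousLinearMap.adjoint T) hδ (fun x hx => by
      have := hloc x hx
      rw [inner_zero_left, zero_add] at this
      exact this)
  have hnorm : ∀ x, ‖(ContinuousLinearMap.adjoint T) x‖ = r * ‖x‖ := by
    intro x
    have h1 : 0 ≤ r * ‖x‖ := by positivity
    rw [← abs_of_nonneg (norm_nonneg ((ContinuousLinearMap.adjoint T) x)), ← abs_of_nonneg h1,
      ← sq_eq_sq_iff_abs_eq_abs, hiso]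
    ring
  have hpol : ∀ x y, (inner ℝ ((ContinuousLinearMap.adjoint T) x) ((ContinuousLinearMap.adjoint T) y)) =
      r ^ 2 * (inner ℝ x y) := by
    intro x y
    have e1 := hiso (x + y)
    rw [map_add, norm_add_sq_real, norm_add_sq_real, hiso x, hiso y] at e1
    linarith
  have hTT : ∀ x, T ((ContinuousLinearMap.adjoint T) x) = (r ^ 2) • x := by
    intro x
    refine ext_inner_right ℝ (fun y => ?_)
    rw [← ContinuousLinearMap.adjoint_inner_right, hpol, inner_smul_left]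
    simp
  intro x hx
  rw [mem_closedBall_zero_iff] at hx
  refine ⟨(1 / r ^ 2) • (ContinuousLinearMap.adjoint T) x, ?_, ?_⟩
  · rw [mem_closedBall_zero_iff, norm_smul, hnorm, Real.norm_of_nonneg (by positivity)]
    have : 1 / r ^ 2 * (r * ‖x‖) = ‖x‖ / r := by field_simp
    rw [this, div_le_one hr]
    exact hx
  · rw [map_smul, hTT, smul_smul, one_div, inv_mul_cancel₀ (pow_ne_zero 2 hr.ne'), one_smul]

end MP_02d86d_gt
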