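import Pool.Agent.Work.MP_02d86d_gt.Comp
import Pool.Agent.Work.MP_02d86d_gt.PatchAlg

/-! A convex body inside a ball which contains a patch of the sphere and is a limit of
ellipsoids contained in it contains the whole ball. -/

set_option autoImplicit false

namespace MP_02d86d_gt

open MeasureTheory Set Filter Topology Metric

/-- compactness of the affine maps whose image of the unit ball lies in a fixed ball -/
theorem exists_limit_affine {n : ℕ} {r : ℝ} (hr : 0 < r)
    (A : ℕ → AffineEquiv ℝ (EuclideanSpace ℝ (Fin n)) (EuclideanSpace ℝ (Fin n)))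
    (hA : ∀ k, A k '' closedBall 0 1 ⊆ closedBall 0 r) :
    ∃ (c : EuclideanSpace ℝ (Fin n)) (T : EuclideanSpace ℝ (Fin n) →L[ℝ] EuclideanSpace ℝ (Fin n))
      (ck : ℕ → EuclideanSpace ℝ (Fin n))
      (Tk : ℕ → EuclideanSpace ℝ (Fin n) →L[ℝ] EuclideanSpace ℝ (Fin n)) (φ : ℕ → ℕ),
      StrictMono φ ∧ (∀ k x, A k x = ck k + Tk k x) ∧
      Tendsto (fun k => ck (φ k)) atTop (𝓝 c) ∧ Tendsto (fun k => Tk (φ k)) atTop (𝓝 T) := by
  set E := EuclideanSpace ℝ (Fin n) with hE
  let ck : ℕ → E := fun k => A k 0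
  let Tk : ℕ → E →L[ℝ] E := fun k => LinearMap.toContinuousLinearMap (A k).linear.toLinearMap
  have hdec : ∀ k x, A k x = ck k + Tk k x := by
    intro k x
    have h1 := (A k).map_vadd (0 : E) x
    simp only [vadd_eq_add, add_zero] at h1
    rw [h1, add_comm]
    rfl
  have hck : ∀ k, ‖ck k‖ ≤ r := by
    intro k
    have h1 : A k 0 ∈ closedBall (0 : E) r :=
      hA k (mem_image_of_mem _ (by simp))
    simpa using h1
  have hTk : ∀ k, ‖Tk k‖ ≤ 2 * r := by
    intro k
    refine ContinuousLinearMap.opNorm_le_of_unit_norm (by positivity) fun x hx => ?_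
    have h1 : A k x ∈ closedBall (0 : E) r := hA k (mem_image_of_mem _ (by simp [hx]))
    have h2 : ‖A k x‖ ≤ r := by simpa using h1
    have h3 : Tk k x = A k x - ck k := by rw [hdec]; abel
    rw [h3]
    calc ‖A k x - ck k‖ ≤ ‖A k x‖ + ‖ck k‖ := norm_sub_le _ _
      _ ≤ r + r := add_le_add h2 (hck k)
      _ = 2 * r := by ring
  have hprop : ProperSpace (E →L[ℝ] E) := FiniteDimensional.proper ℝ (E →L[ℝ] E)
  have hcomp : IsCompact (closedBall (0 : E) r ×ˢ closedBall (0 : E →L[ℝ] E) (2 * r)) :=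
    (isCompact_closedBall _ _).prod (isCompact_closedBall _ _)
  obtain ⟨⟨c, T⟩, -, φ, hφ, hlim⟩ := hcomp.tendsto_subseq
    (x := fun k => (ck k, Tk k)) (fun k => ⟨by simpa using hck k, by simpa using hTk k⟩)
  refine ⟨c, T, ck, Tk, φ, hφ, hdec, ?_, ?_⟩
  · exact (continuous_fst.tendsto _).comp hlim
  · exact (continuous_snd.tendsto _).comp hlim

theorem patch {n : ℕ} (hn : 2 ≤ n) {r : ℝ} (hr : 0 < r) {M : Set (EuclideanSpace ℝ (Fin n))}
    (hM : IsCompact M) (hMc : Convex ℝ M) (hMr : M ⊆ closedBall 0 r)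
    {w0 : EuclideanSpace ℝ (Fin n)} (hw0 : ‖w0‖ = r) {d : ℝ} (hd : 0 < d)
    (hp : ∀ w, ‖w‖ = r → ‖w - w0‖ < d → w ∈ M) {Ek : ℕ → Set (EuclideanSpace ℝ (Fin n))}
    (hE : ∀ k, ∃ A : AffineEquiv ℝ (EuclideanSpace ℝ (Fin n)) (EuclideanSpace ℝ (Fin n)),
      Ek k = A '' closedBall 0 1)
    (hEM : ∀ k, Ek k ⊆ M)
    (hlim : Tendsto (fun k => Metric.hausdorffDist (Ek k) M) atTop (𝓝 0)) :
    closedBall 0 r ⊆ M := by
  choose A hA using hE
  obtain ⟨c, T, ck, Tk, φ, hφ, hdec, hc, hT⟩ := exists_limit_affine hr A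
    (fun k => by rw [← hA k]; exact (hEM k).trans hMr)
  -- the limit ellipsoid lies in `M`
  have hin : ∀ x : EuclideanSpace ℝ (Fin n), ‖x‖ ≤ 1 → c + T x ∈ M := by
    intro x hx
    have h1 : Tendsto (fun k => ck (φ k) + Tk (φ k) x) atTop (𝓝 (c + T x)) :=
      hc.add (((ContinuousLinearMap.apply ℝ _ x).continuous.tendsto T).comp hT)
    refine hM.isClosed.mem_of_tendsto h1 (Eventually.of_forall fun k => ?_)
    rw [← hdec]
    refine hEM (φ k) ?_
    rw [hA]
    exact mem_image_of_mem _ (by simpa using hx)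
  have hEne : ∀ k, (Ek k).Nonempty := by
    intro k
    rw [hA]
    exact ⟨A k 0, mem_image_of_mem _ (by simp)⟩
  have hMne : M.Nonempty := (hEne 0).mono (hEM 0)
  -- contact
  have hcontact : ∀ w : EuclideanSpace ℝ (Fin n), ‖w‖ = r → ‖w - w0‖ < d →
      inner ℝ c w + ‖(ContinuousLinearMap.adjoint T) w‖ = r * r := by
    intro w hw hwd
    apply le_antisymm
    · -- `≤`
      obtain ⟨x, hx, hxw⟩ : ∃ x : EuclideanSpace ℝ (Fin n), ‖x‖ ≤ 1 ∧
          inner ℝ ((ContinuousLinearMap.adjoint T) w) x = ‖(ContinuousLinearMap.adjoint T) w‖ := by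
        by_cases h0 : (ContinuousLinearMap.adjoint T) w = 0
        · exact ⟨0, by simp, by simp [h0]⟩
        · have h1 : ‖(ContinuousLinearMap.adjoint T) w‖ ≠ 0 := norm_ne_zero_iff.2 h0
          refine ⟨‖(ContinuousLinearMap.adjoint T) w‖⁻¹ • (ContinuousLinearMap.adjoint T) w,
            ?_, ?_⟩
          · rw [norm_smul, norm_inv, norm_norm, inv_mul_cancel₀ h1]
          · rw [inner_smul_right, real_inner_self_eq_norm_sq]
            field_simp
      have h2 : ‖c + T x‖ ≤ r := by
        have := hMr (hin x hx)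
        simpa using this
      have h3 : inner ℝ w (c + T x) ≤ r * r := by
        calc inner ℝ w (c + T x) ≤ ‖w‖ * ‖c + T x‖ := real_inner_le_norm _ _
          _ ≤ r * r := by rw [hw]; exact mul_le_mul_of_nonneg_left h2 hr.le
      rw [inner_add_right, ← ContinuousLinearMap.adjoint_inner_left, hxw,
        real_inner_comm] at h3
      exact h3
    · -- `≥`
      have hwM : w ∈ M := hp w hw hwd
      obtain ⟨y, hy, hyw⟩ := hd_exists hEne hMne
        (fun k => hM.isBounded.subset (hEM k)) hM.isBounded hlim hwM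
      have h1 : Tendsto (fun k => inner ℝ w (y (φ k))) atTop (𝓝 (inner ℝ w w)) :=
        ((continuous_const.inner continuous_id).tendsto w).comp (hyw.comp hφ.tendsto_atTop)
      have h2 : Tendsto (fun k => inner ℝ (ck (φ k)) w +
          ‖(ContinuousLinearMap.adjoint (Tk (φ k))) w‖) atTop
          (𝓝 (inner ℝ c w + ‖(ContinuousLinearMap.adjoint T) w‖)) := by
        refine Tendsto.add ?_ ?_
        · exact ((continuous_id.inner continuous_const).tendsto c).comp hc
        · have h3 : Tendsto (fun k => (ContinuousLinearMap.adjoint (Tk (φ k))) w) atTop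
              (𝓝 ((ContinuousLinearMap.adjoint T) w)) := by
            have h4 : Continuous fun S : EuclideanSpace ℝ (Fin n) →L[ℝ] EuclideanSpace ℝ (Fin n) =>
                (ContinuousLinearMap.adjoint S) w :=
              (ContinuousLinearMap.apply ℝ (EuclideanSpace ℝ (Fin n)) w).continuous.comp
                (ContinuousLinearMap.adjoint (𝕜 := ℝ) (E := EuclideanSpace ℝ (Fin n))
                  (F := EuclideanSpace ℝ (Fin n))).continuous
            exact (h4.tendsto T).comp hT
          exact (continuous_norm.tendsto _).comp h3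
      have h5 : inner ℝ w w = r * r := by
        rw [real_inner_self_eq_norm_mul_norm, hw]
      rw [← h5]
      refine le_of_tendsto_of_tendsto' h1 h2 fun k => ?_
      have h6 := hy (φ k)
      rw [hA] at h6
      obtain ⟨x, hx, hxy⟩ := h6
      have hx1 : ‖x‖ ≤ 1 := by simpa using hx
      rw [← hxy, hdec, inner_add_right, ← ContinuousLinearMap.adjoint_inner_left,
        real_inner_comm w (ck (φ k))]
      have h7 : inner ℝ ((ContinuousLinearMap.adjoint (Tk (φ k))) w) x ≤
          ‖(ContinuousLinearMap.adjoint (Tk (φ k))) w‖ := by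
        calc inner ℝ ((ContinuousLinearMap.adjoint (Tk (φ k))) w) x
            ≤ ‖(ContinuousLinearMap.adjoint (Tk (φ k))) w‖ * ‖x‖ := real_inner_le_norm _ _
          _ ≤ ‖(ContinuousLinearMap.adjoint (Tk (φ k))) w‖ * 1 :=
            mul_le_mul_of_nonneg_left hx1 (norm_nonneg _)
          _ = _ := mul_one _
      linarith
  obtain ⟨hc0, hsub⟩ := patch_alg hn hr c T hw0 hd hcontact
  intro w hw
  obtain ⟨x, hx, hxw⟩ := hsub hw
  have h1 := hin x (by simpa using hx)
  rw [hc0, zero_add, hxw] at h1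
  exact h1

end MP_02d86d_gt
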