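import Mathlib

/-! Steiner symmetrals: definition, chords, the Fubini theorem along a direction. -/

set_option autoImplicit false

namespace MP_02d86d_gt

open MeasureTheory Set Filter Topology Metric

variable {n : ℕ}

/-- The Steiner symmetral of `K` in the direction `u`. -/
def st (u : EuclideanSpace ℝ (Fin n)) (K : Set (EuclideanSpace ℝ (Fin n))) :
    Set (EuclideanSpace ℝ (Fin n)) :=
  {x | (∃ s : ℝ, x - (inner ℝ x u) • u + s • u ∈ K) ∧
    2 * |inner ℝ x u| ≤ (volume {s : ℝ | x - (inner ℝ x u) • u + s • u ∈ K}).toReal}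

/-- The reflection in the hyperplane orthogonal to `u`. -/
noncomputable def rho (u : EuclideanSpace ℝ (Fin n)) :
    EuclideanSpace ℝ (Fin n) ≃ₗᵢ[ℝ] EuclideanSpace ℝ (Fin n) :=
  (ℝ ∙ u)ᗮ.reflection

/-- The point with coordinates `t`, `y`. -/
def pt (u : EuclideanSpace ℝ (Fin n)) (t : (ℝ ∙ u)ᗮ) (y : ℝ) : EuclideanSpace ℝ (Fin n) :=
  (t : EuclideanSpace ℝ (Fin n)) + y • u

theorem inner_coe (u : EuclideanSpace ℝ (Fin n)) (t : (ℝ ∙ u)ᗮ) :
    inner ℝ (t : EuclideanSpace ℝ (Fin n)) u = 0 := by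
  have h := (Submodule.mem_orthogonal_singleton_iff_inner_left (𝕜 := ℝ)).1 t.2
  exact h

theorem inner_pt {u : EuclideanSpace ℝ (Fin n)} (hu : ‖u‖ = 1) (t : (ℝ ∙ u)ᗮ) (y : ℝ) :
    inner ℝ (pt u t y) u = y := by
  unfold pt
  rw [inner_add_left, inner_coe, inner_smul_left, real_inner_self_eq_norm_sq, hu]
  simp

theorem pt_sub {u : EuclideanSpace ℝ (Fin n)} (hu : ‖u‖ = 1) (t : (ℝ ∙ u)ᗮ) (y s : ℝ) :
    pt u t y - (inner ℝ (pt u t y) u) • u + s • u = pt u t s := by
  rw [inner_pt hu]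
  unfold pt
  abel

theorem rho_apply {u : EuclideanSpace ℝ (Fin n)} (hu : ‖u‖ = 1) (x : EuclideanSpace ℝ (Fin n)) :
    rho u x = x - (2 * inner ℝ x u) • u := by
  unfold rho
  rw [Submodule.reflection_orthogonal_apply, Submodule.reflection_singleton_apply]
  simp only [hu, RCLike.ofReal_real_eq_id, id_eq, one_pow, div_one]
  rw [real_inner_comm, two_smul, mul_smul, two_smul]
  abel

theorem rho_pt {u : EuclideanSpace ℝ (Fin n)} (hu : ‖u‖ = 1) (t : (ℝ ∙ u)ᗮ) (y : ℝ) :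
    rho u (pt u t y) = pt u t (-y) := by
  rw [rho_apply hu, inner_pt hu]
  unfold pt
  rw [mul_smul, two_smul, neg_smul]
  abel

theorem rho_rho (u : EuclideanSpace ℝ (Fin n)) (x : EuclideanSpace ℝ (Fin n)) :
    rho u (rho u x) = x := Submodule.reflection_reflection _ x

/-- Every point has coordinates. -/
theorem exists_pt {u : EuclideanSpace ℝ (Fin n)} (hu : ‖u‖ = 1) (x : EuclideanSpace ℝ (Fin n)) :
    ∃ (t : (ℝ ∙ u)ᗮ) (y : ℝ), pt u t y = x := by
  refine ⟨⟨x - (inner ℝ x u) • u, ?_⟩, inner ℝ x u, ?_⟩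
  · rw [Submodule.mem_orthogonal_singleton_iff_inner_left, inner_sub_left, inner_smul_left,
      real_inner_self_eq_norm_sq, hu]
    simp
  · unfold pt
    simp

theorem norm_pt {u : EuclideanSpace ℝ (Fin n)} (hu : ‖u‖ = 1) (t : (ℝ ∙ u)ᗮ) (y : ℝ) :
    ‖pt u t y‖ ^ 2 = ‖(t : EuclideanSpace ℝ (Fin n))‖ ^ 2 + y ^ 2 := by
  unfold pt
  rw [norm_add_sq_real, inner_smul_right, inner_coe, norm_smul, hu]
  simp

theorem continuous_pt (u : EuclideanSpace ℝ (Fin n)) :
    Continuous fun p : (ℝ ∙ u)ᗮ × ℝ => pt u p.1 p.2 := by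
  unfold pt
  fun_prop

/-- The chord of `K` over `t`. -/
def chord (u : EuclideanSpace ℝ (Fin n)) (K : Set (EuclideanSpace ℝ (Fin n))) (t : (ℝ ∙ u)ᗮ) :
    Set ℝ := {y | pt u t y ∈ K}

theorem mem_st {u : EuclideanSpace ℝ (Fin n)} (hu : ‖u‖ = 1)
    (K : Set (EuclideanSpace ℝ (Fin n))) (t : (ℝ ∙ u)ᗮ) (y : ℝ) :
    pt u t y ∈ st u K ↔ (chord u K t).Nonempty ∧ 2 * |y| ≤ (volume (chord u K t)).toReal := by
  have h : ∀ s, pt u t y - (inner ℝ (pt u t y) u) • u + s • u = pt u t s := pt_sub hu t y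
  unfold st chord
  rw [Set.mem_setOf_eq]
  simp_rw [h]
  rw [inner_pt hu]
  rfl

/-- The coordinates preserve the volume. -/
theorem mp_pt {u : EuclideanSpace ℝ (Fin n)} (hu : ‖u‖ = 1) :
    MeasurePreserving (fun p : (ℝ ∙ u)ᗮ × ℝ => pt u p.1 p.2) (volume.prod volume) volume := by
  have h1 : MeasurePreserving (Prod.map (id : (ℝ ∙ u)ᗮ → (ℝ ∙ u)ᗮ)
      (LinearIsometryEquiv.toSpanUnitSingleton (𝕜 := ℝ) u hu)) (volume.prod volume)
      (volume.prod volume) :=
    (MeasurePreserving.id _).prod (LinearIsometryEquiv.measurePreserving _)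
  have h2 : MeasurePreserving (Prod.swap : (ℝ ∙ u)ᗮ × (ℝ ∙ u) → (ℝ ∙ u) × (ℝ ∙ u)ᗮ)
      (volume.prod volume) (volume.prod volume) := Measure.measurePreserving_swap
  have h3 := WithLp.volume_preserving_toLp (ℝ ∙ u) (ℝ ∙ u)ᗮ
  have h4 := ((ℝ ∙ u).orthogonalDecomposition.symm).measurePreserving
  have h5 := h4.comp (h3.comp (h2.comp h1))
  have h6 : (fun p : (ℝ ∙ u)ᗮ × ℝ => pt u p.1 p.2) = (⇑(ℝ ∙ u).orthogonalDecomposition.symm ∘
      WithLp.toLp 2 ∘ Prod.swap ∘ Prod.map id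
        (LinearIsometryEquiv.toSpanUnitSingleton (𝕜 := ℝ) u hu)) := by
    funext p
    simp only [Function.comp_apply, Prod.map, Prod.swap, id]
    rw [LinearIsometryEquiv.toSpanUnitSingleton_apply]
    rw [Submodule.orthogonalDecomposition_symm_apply]
    unfold pt
    simp [add_comm]
  rw [h6]
  exact h5

theorem emb_pt {u : EuclideanSpace ℝ (Fin n)} (hu : ‖u‖ = 1) :
    MeasurableEmbedding fun p : (ℝ ∙ u)ᗮ × ℝ => pt u p.1 p.2 := by
  refine (continuous_pt u).measurableEmbedding ?_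
  rintro ⟨t, y⟩ ⟨t', y'⟩ h
  have h' : pt u t y = pt u t' y' := h
  have hy : y = y' := by rw [← inner_pt hu t y, h', inner_pt hu]
  subst hy
  unfold pt at h'
  have ht : (t : EuclideanSpace ℝ (Fin n)) = t' := add_right_cancel h'
  rw [Subtype.ext ht]

/-- The integral of `f` over the chord of `K` over `t`. -/
noncomputable def ci (u : EuclideanSpace ℝ (Fin n)) (K : Set (EuclideanSpace ℝ (Fin n)))
    {G : Type} [NormedAddCommGroup G] [NormedSpace ℝ G] (f : EuclideanSpace ℝ (Fin n) → G)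
    (t : (ℝ ∙ u)ᗮ) : G := ∫ y in chord u K t, f (pt u t y)

theorem integrable_ci {u : EuclideanSpace ℝ (Fin n)} (hu : ‖u‖ = 1)
    {K : Set (EuclideanSpace ℝ (Fin n))} (hK : MeasurableSet K)
    {G : Type} [NormedAddCommGroup G] [NormedSpace ℝ G] {f : EuclideanSpace ℝ (Fin n) → G}
    (hf : IntegrableOn f K) : Integrable (ci u K f) ∧ ∫ t, ci u K f t = ∫ x in K, f x := by
  have h1 : Integrable (K.indicator f) := (integrable_indicator_iff hK).2 hf
  have h2 : Integrable (fun p : (ℝ ∙ u)ᗮ × ℝ => K.indicator f (pt u p.1 p.2))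
      (volume.prod volume) := by
    have := ((mp_pt hu).integrable_comp_emb (emb_pt hu) (g := K.indicator f)).2 h1
    exact this
  have h3 : ∀ t, ∫ y, K.indicator f (pt u t y) = ci u K f t := by
    intro t
    unfold ci
    have hm : MeasurableSet (chord u K t) := by
      have hc : Continuous fun y : ℝ => pt u t y := by unfold pt; fun_prop
      exact hc.measurable hK
    rw [← integral_indicator hm]
    rfl
  have h4 := h2.integral_prod_left
  simp only [h3] at h4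
  refine ⟨h4, ?_⟩
  rw [← integral_indicator hK, ← (mp_pt hu).integral_comp (emb_pt hu), integral_prod _ h2]
  simp only [h3]

/-- The Fourier transform of the indicator function of `K`. -/
noncomputable def Th (K : Set (EuclideanSpace ℝ (Fin n))) (ξ : EuclideanSpace ℝ (Fin n)) : ℂ :=
  charFun (volume.restrict K) ξ

/-- A weight. -/
noncomputable def wt (ξ : EuclideanSpace ℝ (Fin n)) : ℝ := (1 + ‖ξ‖) ^ (-((n : ℝ) + 3))

/-- The squared distance of `K` and `L`. -/
noncomputable def F (K L : Set (EuclideanSpace ℝ (Fin n))) : ℝ :=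
  ∫ ξ, ‖Th K ξ - Th L ξ‖ ^ 2 * wt ξ

end MP_02d86d_gt
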