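import Pool.Agent.Work.MP_02d86d_gt.Defs

/-! The chord estimates. -/

set_option autoImplicit false

namespace MP_02d86d_gt

open MeasureTheory Set Filter Topology Metric

variable {n : ℕ}

theorem Th_eq (K : Set (EuclideanSpace ℝ (Fin n))) (ξ : EuclideanSpace ℝ (Fin n)) :
    Th K ξ = ∫ x in K, Complex.exp (inner ℝ x ξ * Complex.I) := by
  unfold Th
  rw [charFun_apply]

/-- Integral of an exponential over an interval, through the centred interval. -/
theorem exp_chord (p r a b : ℝ) :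
    ∫ y in Icc a b, Complex.exp (((p + y * r : ℝ) : ℂ) * Complex.I) =
      Complex.exp (((r * ((a + b) / 2) : ℝ) : ℂ) * Complex.I) *
        ∫ y in Icc (-((b - a) / 2)) ((b - a) / 2),
          Complex.exp (((p + y * r : ℝ) : ℂ) * Complex.I) := by
  have h1 : (Icc a b).indicator (fun y : ℝ => Complex.exp (((p + y * r : ℝ) : ℂ) * Complex.I)) =
      fun y => (Icc (-((b - a) / 2)) ((b - a) / 2)).indicator
        (fun y : ℝ => Complex.exp (((r * ((a + b) / 2) : ℝ) : ℂ) * Complex.I) *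
          Complex.exp (((p + y * r : ℝ) : ℂ) * Complex.I)) (y - (a + b) / 2) := by
    funext y
    by_cases hy : y ∈ Icc a b
    · have hy' : y - (a + b) / 2 ∈ Icc (-((b - a) / 2)) ((b - a) / 2) := by
        rw [mem_Icc] at hy ⊢
        constructor <;> linarith [hy.1, hy.2]
      rw [indicator_of_mem hy, indicator_of_mem hy', ← Complex.exp_add]
      congr 1
      push_cast
      ring
    · have hy' : y - (a + b) / 2 ∉ Icc (-((b - a) / 2)) ((b - a) / 2) := by
        intro h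
        apply hy
        rw [mem_Icc] at h ⊢
        constructor <;> linarith [h.1, h.2]
      rw [indicator_of_notMem hy, indicator_of_notMem hy']
  rw [← integral_indicator measurableSet_Icc, h1,
    integral_sub_right_eq_self (fun y => (Icc (-((b - a) / 2)) ((b - a) / 2)).indicator
        (fun y : ℝ => Complex.exp (((r * ((a + b) / 2) : ℝ) : ℂ) * Complex.I) *
          Complex.exp (((p + y * r : ℝ) : ℂ) * Complex.I)) y),
    integral_indicator measurableSet_Icc, integral_const_mul]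

theorem norm_exp_chord (p r : ℝ) {l : ℝ} (hl : 0 ≤ l) :
    ‖∫ y in Icc (-(l / 2)) (l / 2), Complex.exp (((p + y * r : ℝ) : ℂ) * Complex.I)‖ ≤ l := by
  have h := norm_setIntegral_le_of_norm_le_const (μ := volume) (s := Icc (-(l / 2)) (l / 2))
    (f := fun y : ℝ => Complex.exp (((p + y * r : ℝ) : ℂ) * Complex.I)) (C := 1) (by simp)
    (fun y _ => le_of_eq (Complex.norm_exp_ofReal_mul_I _))
  refine h.trans (le_of_eq ?_)
  rw [one_mul, Measure.real, Real.volume_Icc, ENNReal.toReal_ofReal] <;> linarith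

theorem exp_second (x : ℝ) :
    ‖1 - (Complex.exp ((x : ℂ) * Complex.I) + Complex.exp (((-x : ℝ) : ℂ) * Complex.I)) / 2‖ ≤
      x ^ 2 / 2 := by
  have h : (1 : ℂ) - (Complex.exp ((x : ℂ) * Complex.I) +
      Complex.exp (((-x : ℝ) : ℂ) * Complex.I)) / 2 = ((1 - Real.cos x : ℝ) : ℂ) := by
    push_cast
    rw [Complex.cos]
  rw [h, Complex.norm_real, Real.norm_eq_abs, abs_of_nonneg (by linarith [Real.cos_le_one x])]
  linarith [Real.one_sub_sq_div_two_le_cos (x := x)]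

theorem exp_first (x : ℝ) :
    ‖Complex.exp (((-x : ℝ) : ℂ) * Complex.I) - Complex.exp ((x : ℂ) * Complex.I)‖ ≤
      2 * |x| := by
  have h1 : ∀ z : ℝ, ‖Complex.exp ((z : ℂ) * Complex.I) - 1‖ ≤ |z| := by
    intro z
    have := Real.norm_exp_I_mul_ofReal_sub_one_le (x := z)
    rw [mul_comm, Real.norm_eq_abs] at this
    exact this
  calc ‖Complex.exp (((-x : ℝ) : ℂ) * Complex.I) - Complex.exp ((x : ℂ) * Complex.I)‖
      = ‖(Complex.exp (((-x : ℝ) : ℂ) * Complex.I) - 1) -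
          (Complex.exp ((x : ℂ) * Complex.I) - 1)‖ := by congr 1; ring
    _ ≤ ‖Complex.exp (((-x : ℝ) : ℂ) * Complex.I) - 1‖ + ‖Complex.exp ((x : ℂ) * Complex.I) - 1‖ :=
        norm_sub_le _ _
    _ ≤ |-x| + |x| := add_le_add (h1 _) (h1 _)
    _ = 2 * |x| := by rw [abs_neg]; ring

/-- The difference of the moments of inertia of an interval and of the centred interval. -/
theorem sq_chord (q a b : ℝ) (hab : a ≤ b) :
    (∫ y in Icc a b, (q + y ^ 2)) -
      ∫ y in Icc (-((b - a) / 2)) ((b - a) / 2), (q + y ^ 2) =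
      (b - a) * ((a + b) / 2) ^ 2 := by
  rw [integral_Icc_eq_integral_Ioc, integral_Icc_eq_integral_Ioc,
    ← intervalIntegral.integral_of_le hab, ← intervalIntegral.integral_of_le (by linarith),
    intervalIntegral.integral_add (by simp) (by simp),
    intervalIntegral.integral_add (by simp) (by simp), integral_pow, integral_pow]
  simp only [intervalIntegral.integral_const, smul_eq_mul]
  push_cast
  ring

/-- The chords of `K`, of its symmetral and of its mirror image. -/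
def Chords (u : EuclideanSpace ℝ (Fin n)) (K : Set (EuclideanSpace ℝ (Fin n))) : Prop :=
  ∀ t, (chord u K t = ∅ ∧ chord u (st u K) t = ∅ ∧ chord u (rho u '' K) t = ∅) ∨
    ∃ a b : ℝ, a ≤ b ∧ chord u K t = Icc a b ∧
      chord u (st u K) t = Icc (-((b - a) / 2)) ((b - a) / 2) ∧
      chord u (rho u '' K) t = Icc (-b) (-a)

theorem inner_pt_right (u ξ : EuclideanSpace ℝ (Fin n)) (t : (ℝ ∙ u)ᗮ) (y : ℝ) :
    inner ℝ (pt u t y) ξ = inner ℝ (t : EuclideanSpace ℝ (Fin n)) ξ + y * inner ℝ u ξ := by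
  unfold pt
  rw [inner_add_left, inner_smul_left]
  rfl

section
variable {u : EuclideanSpace ℝ (Fin n)} (hu : ‖u‖ = 1) {K : Set (EuclideanSpace ℝ (Fin n))}
  (hch : Chords u K)
include hu hch

/-- The three chord integrals of an exponential. -/
theorem ci_exp (ξ : EuclideanSpace ℝ (Fin n)) (t : (ℝ ∙ u)ᗮ) :
    ∃ (m l : ℝ) (A : ℂ), 0 ≤ l ∧ ‖A‖ ≤ l ∧
      ci u (st u K) (fun x => Complex.exp (inner ℝ x ξ * Complex.I)) t = A ∧
      ci u K (fun x => Complex.exp (inner ℝ x ξ * Complex.I)) t =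
        Complex.exp (((inner ℝ u ξ * m : ℝ) : ℂ) * Complex.I) * A ∧
      ci u (rho u '' K) (fun x => Complex.exp (inner ℝ x ξ * Complex.I)) t =
        Complex.exp (((-(inner ℝ u ξ * m) : ℝ) : ℂ) * Complex.I) * A ∧
      ci u K (fun x => ‖x‖ ^ 2) t - ci u (st u K) (fun x => ‖x‖ ^ 2) t = l * m ^ 2 ∧
      ci u K (fun _ => (1 : ℝ)) t = l := by
  unfold ci
  rcases hch t with ⟨h1, h2, h3⟩ | ⟨a, b, hab, h1, h2, h3⟩
  · refine ⟨0, 0, 0, le_refl _, by simp, ?_, ?_, ?_, ?_, ?_⟩ <;> simp [h1, h2, h3]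
  · have hE : ∀ y : ℝ, Complex.exp (((inner ℝ (pt u t y) ξ : ℝ) : ℂ) * Complex.I) =
        Complex.exp (((inner ℝ (t : EuclideanSpace ℝ (Fin n)) ξ + y * inner ℝ u ξ : ℝ) : ℂ) *
          Complex.I) := by
      intro y
      rw [inner_pt_right]
    simp only [hE, norm_pt hu, h1, h2, h3]
    refine ⟨(a + b) / 2, b - a, _, by linarith, norm_exp_chord _ _ (by linarith), rfl, ?_, ?_,
      sq_chord _ _ _ hab, ?_⟩
    · rw [exp_chord]
    · rw [exp_chord]
      have e1 : (-a - -b) / 2 = (b - a) / 2 := by ring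
      have e2 : inner ℝ u ξ * ((-b + -a) / 2) = -(inner ℝ u ξ * ((a + b) / 2)) := by ring
      rw [e1, e2]
    · rw [setIntegral_const, Measure.real, Real.volume_Icc, ENNReal.toReal_ofReal (by linarith)]
      simp

/-- The loss of inertia. -/
noncomputable def Dlt (u : EuclideanSpace ℝ (Fin n)) (K : Set (EuclideanSpace ℝ (Fin n))) : ℝ :=
  (∫ x in K, ‖x‖ ^ 2) - ∫ x in st u K, ‖x‖ ^ 2

variable (hK : IsCompact K) (hS : IsCompact (st u K))
include hK hS

theorem dlt_eq : Integrable (fun t => ci u K (fun x => ‖x‖ ^ 2) t -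
      ci u (st u K) (fun x => ‖x‖ ^ 2) t) ∧
    ∫ t, (ci u K (fun x => ‖x‖ ^ 2) t - ci u (st u K) (fun x => ‖x‖ ^ 2) t) = Dlt u K := by
  have h1 := integrable_ci hu hK.measurableSet (f := fun x => ‖x‖ ^ 2)
    ((by fun_prop : Continuous fun x : EuclideanSpace ℝ (Fin n) => ‖x‖ ^ 2).continuousOn
      |>.integrableOn_compact hK)
  have h2 := integrable_ci hu hS.measurableSet (f := fun x => ‖x‖ ^ 2)
    ((by fun_prop : Continuous fun x : EuclideanSpace ℝ (Fin n) => ‖x‖ ^ 2).continuousOn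
      |>.integrableOn_compact hS)
  refine ⟨h1.1.sub h2.1, ?_⟩
  rw [integral_sub h1.1 h2.1, h1.2, h2.2]
  rfl

theorem dlt_nonneg : 0 ≤ Dlt u K := by
  rw [← (dlt_eq hu hch hK hS).2]
  refine integral_nonneg fun t => ?_
  obtain ⟨m, l, A, hl, -, -, -, -, h, -⟩ := ci_exp hu hch 0 t
  simp only [Pi.zero_apply]
  rw [h]
  positivity

theorem est2 (ξ : EuclideanSpace ℝ (Fin n)) :
    ‖Th (st u K) ξ - (Th K ξ + Th (rho u '' K) ξ) / 2‖ ≤ ‖ξ‖ ^ 2 / 2 * Dlt u K := by
  have hR : IsCompact (rho u '' K) := hK.image (rho u).continuous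
  have hc : Continuous fun x : EuclideanSpace ℝ (Fin n) =>
    Complex.exp (((inner ℝ x ξ : ℝ) : ℂ) * Complex.I) := by fun_prop
  have h1 := integrable_ci hu hK.measurableSet (hc.continuousOn.integrableOn_compact hK)
  have h2 := integrable_ci hu hS.measurableSet (hc.continuousOn.integrableOn_compact hS)
  have h3 := integrable_ci hu hR.measurableSet (hc.continuousOn.integrableOn_compact hR)
  have h4 := dlt_eq hu hch hK hS
  have h5 : Integrable (fun a => (ci u K (fun x : EuclideanSpace ℝ (Fin n) =>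
      Complex.exp (((inner ℝ x ξ : ℝ) : ℂ) * Complex.I)) a +
      ci u (rho u '' K) (fun x : EuclideanSpace ℝ (Fin n) =>
        Complex.exp (((inner ℝ x ξ : ℝ) : ℂ) * Complex.I)) a) / 2) :=
    (h1.1.add h3.1).div_const 2
  rw [Th_eq, Th_eq, Th_eq, ← h1.2, ← h2.2, ← h3.2, ← integral_add h1.1 h3.1,
    ← integral_div, ← integral_sub h2.1 h5, ← h4.2, ← integral_const_mul]
  refine norm_integral_le_of_norm_le (h4.1.const_mul _) (Eventually.of_forall fun t => ?_)
  obtain ⟨m, l, A, hl, hA, e1, e2, e3, e4, -⟩ := ci_exp hu hch ξ t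
  rw [e1, e2, e3, e4]
  have h5 : A - (Complex.exp (((inner ℝ u ξ * m : ℝ) : ℂ) * Complex.I) * A +
      Complex.exp (((-(inner ℝ u ξ * m) : ℝ) : ℂ) * Complex.I) * A) / 2 =
      (1 - (Complex.exp (((inner ℝ u ξ * m : ℝ) : ℂ) * Complex.I) +
        Complex.exp (((-(inner ℝ u ξ * m) : ℝ) : ℂ) * Complex.I)) / 2) * A := by ring
  rw [h5, norm_mul]
  have h6 : |inner ℝ u ξ| ≤ ‖ξ‖ := by
    have := abs_real_inner_le_norm u ξ
    rwa [hu, one_mul] at this
  have h7 : (inner ℝ u ξ) ^ 2 ≤ ‖ξ‖ ^ 2 := by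
    rw [← sq_abs]
    exact pow_le_pow_left₀ (abs_nonneg _) h6 2
  calc _ ≤ (inner ℝ u ξ * m) ^ 2 / 2 * l :=
        mul_le_mul (exp_second _) hA (norm_nonneg _) (by positivity)
    _ = (inner ℝ u ξ) ^ 2 * (m ^ 2 / 2 * l) := by ring
    _ ≤ ‖ξ‖ ^ 2 * (m ^ 2 / 2 * l) := mul_le_mul_of_nonneg_right h7 (by positivity)
    _ = ‖ξ‖ ^ 2 / 2 * (l * m ^ 2) := by ring

theorem est1_aux (ξ : EuclideanSpace ℝ (Fin n)) {c : ℝ} (hc0 : 0 < c) :
    ‖Th (rho u '' K) ξ - Th K ξ‖ ≤ ‖ξ‖ * (c * (volume K).toReal + Dlt u K / c) := by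
  have hR : IsCompact (rho u '' K) := hK.image (rho u).continuous
  have hc : Continuous fun x : EuclideanSpace ℝ (Fin n) =>
    Complex.exp (((inner ℝ x ξ : ℝ) : ℂ) * Complex.I) := by fun_prop
  have h1 := integrable_ci hu hK.measurableSet (hc.continuousOn.integrableOn_compact hK)
  have h3 := integrable_ci hu hR.measurableSet (hc.continuousOn.integrableOn_compact hR)
  have h4 := dlt_eq hu hch hK hS
  have h0 := integrable_ci hu hK.measurableSet (f := fun _ => (1 : ℝ))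
    (continuousOn_const.integrableOn_compact hK)
  have hV : (volume K).toReal = ∫ t, ci u K (fun _ => (1 : ℝ)) t := by
    rw [h0.2, setIntegral_const, smul_eq_mul, mul_one]
    rfl
  rw [Th_eq, Th_eq, ← h1.2, ← h3.2, ← integral_sub h3.1 h1.1, hV, ← h4.2, ← integral_const_mul,
    ← integral_div, ← integral_add (h0.1.const_mul _) (h4.1.div_const _), ← integral_const_mul]
  refine norm_integral_le_of_norm_le (((h0.1.const_mul _).add (h4.1.div_const _)).const_mul _)
    (Eventually.of_forall fun t => ?_)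
  obtain ⟨m, l, A, hl, hA, e1, e2, e3, e4, e5⟩ := ci_exp hu hch ξ t
  rw [e2, e3, e4, e5, ← sub_mul, norm_mul]
  have h6 : |inner ℝ u ξ| ≤ ‖ξ‖ := by
    have := abs_real_inner_le_norm u ξ
    rwa [hu, one_mul] at this
  have h7 : 2 * |m| ≤ c + m ^ 2 / c := by
    have h8 : 0 ≤ (c - |m|) ^ 2 := sq_nonneg _
    have h9 : 2 * |m| * c ≤ c ^ 2 + m ^ 2 := by nlinarith [sq_abs m]
    rw [← sub_nonneg]
    have : c + m ^ 2 / c - 2 * |m| = (c ^ 2 + m ^ 2 - 2 * |m| * c) / c := by field_simp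
    rw [this]
    exact div_nonneg (by linarith) hc0.le
  calc _ ≤ 2 * |inner ℝ u ξ * m| * l :=
        mul_le_mul (exp_first _) hA (norm_nonneg _) (by positivity)
    _ = |inner ℝ u ξ| * ((2 * |m|) * l) := by rw [abs_mul]; ring
    _ ≤ ‖ξ‖ * ((c + m ^ 2 / c) * l) :=
        mul_le_mul h6 (mul_le_mul_of_nonneg_right h7 hl) (by positivity) (norm_nonneg _)
    _ = ‖ξ‖ * (c * l + l * m ^ 2 / c) := by ring

theorem est1 (ξ : EuclideanSpace ℝ (Fin n)) :
    ‖Th (rho u '' K) ξ - Th K ξ‖ ^ 2 ≤ 4 * ‖ξ‖ ^ 2 * (volume K).toReal * Dlt u K := by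
  have hD := dlt_nonneg hu hch hK hS
  have hV : 0 ≤ (volume K).toReal := ENNReal.toReal_nonneg
  have hx : 0 ≤ ‖Th (rho u '' K) ξ - Th K ξ‖ := norm_nonneg _
  set V := (volume K).toReal
  set D := Dlt u K
  have h := fun c hc => est1_aux hu hch hK hS ξ (c := c) hc
  -- choose `c = sqrt (D + e) / sqrt (V + e)`
  have key : ∀ e : ℝ, 0 < e → ‖Th (rho u '' K) ξ - Th K ξ‖ ^ 2 ≤
      4 * ‖ξ‖ ^ 2 * (V + e) * (D + e) := by
    intro e he
    have hVe : 0 < V + e := by linarith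
    have hDe : 0 < D + e := by linarith
    have hsV : 0 < Real.sqrt (V + e) := Real.sqrt_pos.2 hVe
    have hsD : 0 < Real.sqrt (D + e) := Real.sqrt_pos.2 hDe
    have h1 := h (Real.sqrt (D + e) / Real.sqrt (V + e)) (by positivity)
    have h2 : Real.sqrt (D + e) / Real.sqrt (V + e) * V + D / (Real.sqrt (D + e) /
        Real.sqrt (V + e)) ≤ 2 * (Real.sqrt (D + e) * Real.sqrt (V + e)) := by
      have e1 : Real.sqrt (V + e) * Real.sqrt (V + e) = V + e := Real.mul_self_sqrt hVe.le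
      have e2 : Real.sqrt (D + e) * Real.sqrt (D + e) = D + e := Real.mul_self_sqrt hDe.le
      have h3 : Real.sqrt (D + e) / Real.sqrt (V + e) * V ≤
          Real.sqrt (D + e) * Real.sqrt (V + e) := by
        rw [div_mul_eq_mul_div, div_le_iff₀ hsV, mul_assoc, e1]
        exact mul_le_mul_of_nonneg_left (by linarith) hsD.le
      have h4 : D / (Real.sqrt (D + e) / Real.sqrt (V + e)) ≤
          Real.sqrt (D + e) * Real.sqrt (V + e) := by
        rw [div_div_eq_mul_div, div_le_iff₀ hsD]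
        have : Real.sqrt (D + e) * Real.sqrt (V + e) * Real.sqrt (D + e) =
            (D + e) * Real.sqrt (V + e) := by
          rw [mul_comm (Real.sqrt (D + e)) (Real.sqrt (V + e)), mul_assoc, e2, mul_comm]
        rw [this]
        exact mul_le_mul_of_nonneg_right (by linarith) hsV.le
      linarith
    have h5 : ‖Th (rho u '' K) ξ - Th K ξ‖ ≤
        ‖ξ‖ * (2 * (Real.sqrt (D + e) * Real.sqrt (V + e))) :=
      h1.trans (mul_le_mul_of_nonneg_left h2 (norm_nonneg _))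
    calc _ ≤ (‖ξ‖ * (2 * (Real.sqrt (D + e) * Real.sqrt (V + e)))) ^ 2 :=
          pow_le_pow_left₀ hx h5 2
      _ = 4 * ‖ξ‖ ^ 2 * (Real.sqrt (V + e)) ^ 2 * (Real.sqrt (D + e)) ^ 2 := by ring
      _ = _ := by rw [Real.sq_sqrt hVe.le, Real.sq_sqrt hDe.le]
  have hlim : Tendsto (fun e : ℝ => 4 * ‖ξ‖ ^ 2 * (V + e) * (D + e)) (𝓝[>] 0)
      (𝓝 (4 * ‖ξ‖ ^ 2 * (V + 0) * (D + 0))) :=
    ((by fun_prop : Continuous fun e : ℝ => 4 * ‖ξ‖ ^ 2 * (V + e) * (D + e)).tendsto 0).mono_left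
      nhdsWithin_le_nhds
  rw [add_zero, add_zero] at hlim
  exact ge_of_tendsto hlim (eventually_nhdsWithin_of_forall fun e he => key e he)

end

/-- The moment of inertia. -/
noncomputable def inertia (K : Set (EuclideanSpace ℝ (Fin n))) : ℝ := ∫ x in K, ‖x‖ ^ 2

theorem inertia_nonneg (K : Set (EuclideanSpace ℝ (Fin n))) : 0 ≤ inertia K :=
  integral_nonneg fun _ => by positivity

/-- The parallelogram law with errors. -/
theorem parallelogram {v v' s z : ℂ} {γ κ B : ℝ} (h1 : ‖s - (v + v') / 2‖ ≤ γ)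
    (h2 : ‖v' - v‖ ^ 2 ≤ κ) (h3 : ‖(v + v') / 2 - z‖ ≤ B) :
    (‖v - z‖ ^ 2 + ‖v' - z‖ ^ 2) / 2 - κ / 4 - 2 * B * γ ≤ ‖s - z‖ ^ 2 := by
  have hp : ‖(v + v') / 2 - z‖ ^ 2 = (‖v - z‖ ^ 2 + ‖v' - z‖ ^ 2) / 2 - ‖v' - v‖ ^ 2 / 4 := by
    simp only [Complex.sq_norm, Complex.normSq_apply, Complex.sub_re, Complex.sub_im,
      Complex.div_ofNat_re, Complex.div_ofNat_im, Complex.add_re, Complex.add_im]
    ring
  have h4 : ‖(v + v') / 2 - z‖ ≤ ‖s - z‖ + γ := by
    calc ‖(v + v') / 2 - z‖ = ‖(s - z) - (s - (v + v') / 2)‖ := by congr 1; ring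
      _ ≤ ‖s - z‖ + ‖s - (v + v') / 2‖ := norm_sub_le _ _
      _ ≤ _ := by linarith
  have h5 : 0 ≤ ‖(v + v') / 2 - z‖ := norm_nonneg _
  have h6 : 0 ≤ ‖s - z‖ := norm_nonneg _
  have h7 : 0 ≤ γ := (norm_nonneg _).trans h1
  have h8 : ‖(v + v') / 2 - z‖ ^ 2 - 2 * B * γ ≤ ‖s - z‖ ^ 2 := by
    rcases le_or_gt γ ‖(v + v') / 2 - z‖ with h | h
    · nlinarith
    · nlinarith
  linarith

end MP_02d86d_gt
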