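import Pool.Agent.Work.MP_02d86d_gt.Body

/-! The second order estimate for general test functions. -/

set_option autoImplicit false

namespace MP_02d86d_gt

open MeasureTheory Set Filter Topology Metric

variable {n : ℕ}

/-- The second differences of `g` in the ball of radius `R` are at most `C |h| ^ 2`. -/
def Reg2 (R C : ℝ) (g : EuclideanSpace ℝ (Fin n) → ℂ) : Prop :=
  ∀ x h, ‖x‖ ≤ R → ‖x + h‖ ≤ R → ‖x - h‖ ≤ R → ‖g (x + h) + g (x - h) - 2 * g x‖ ≤ C * ‖h‖ ^ 2

/-- The first differences of `g` in the ball of radius `R` are at most `C |h|`. -/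
def Reg1 (R C : ℝ) (g : EuclideanSpace ℝ (Fin n) → ℂ) : Prop :=
  ∀ x h, ‖x‖ ≤ R → ‖x + h‖ ≤ R → ‖g (x + h) - g x‖ ≤ C * ‖h‖

/-- Continuous, bounded in the ball, with bounded first and second differences. -/
def Nice (R : ℝ) (g : EuclideanSpace ℝ (Fin n) → ℂ) : Prop :=
  Continuous g ∧ ∃ C, 0 ≤ C ∧ (∀ x, ‖x‖ ≤ R → ‖g x‖ ≤ C) ∧ Reg1 R C g ∧ Reg2 R C g

theorem Nice.const (R : ℝ) (c : ℂ) : Nice R fun _ : EuclideanSpace ℝ (Fin n) => c := by
  refine ⟨continuous_const, ‖c‖, norm_nonneg _, fun x _ => le_refl _, fun x h _ _ => ?_,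
    fun x h _ _ _ => ?_⟩
  · rw [sub_self, norm_zero]
    positivity
  · have e : c + c - 2 * c = 0 := by ring
    rw [e, norm_zero]
    positivity

theorem Nice.add {R : ℝ} {f g : EuclideanSpace ℝ (Fin n) → ℂ} (hf : Nice R f) (hg : Nice R g) :
    Nice R fun x => f x + g x := by
  obtain ⟨cf, A, hA, f0, f1, f2⟩ := hf
  obtain ⟨cg, B, hB, g0, g1, g2⟩ := hg
  refine ⟨cf.add cg, A + B, by positivity, fun x hx => ?_, fun x h hx hxh => ?_,
    fun x h hx hxh hxh' => ?_⟩
  · exact (norm_add_le _ _).trans (add_le_add (f0 x hx) (g0 x hx))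
  · have e : f (x + h) + g (x + h) - (f x + g x) = (f (x + h) - f x) + (g (x + h) - g x) := by
      ring
    rw [e, add_mul]
    exact (norm_add_le _ _).trans (add_le_add (f1 x h hx hxh) (g1 x h hx hxh))
  · have e : f (x + h) + g (x + h) + (f (x - h) + g (x - h)) - 2 * (f x + g x) =
        (f (x + h) + f (x - h) - 2 * f x) + (g (x + h) + g (x - h) - 2 * g x) := by
      ring
    rw [e, add_mul]
    exact (norm_add_le _ _).trans (add_le_add (f2 x h hx hxh hxh') (g2 x h hx hxh hxh'))

theorem Nice.mul {R : ℝ} {f g : EuclideanSpace ℝ (Fin n) → ℂ} (hf : Nice R f) (hg : Nice R g) :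
    Nice R fun x => f x * g x := by
  obtain ⟨cf, A, hA, f0, f1, f2⟩ := hf
  obtain ⟨cg, B, hB, g0, g1, g2⟩ := hg
  refine ⟨cf.mul cg, 4 * (A * B), by positivity, fun x hx => ?_, fun x h hx hxh => ?_,
    fun x h hx hxh hxh' => ?_⟩
  · rw [norm_mul]
    have h1 := mul_le_mul (f0 x hx) (g0 x hx) (norm_nonneg _) hA
    have h2 : 0 ≤ A * B := by positivity
    linarith
  · have e : f (x + h) * g (x + h) - f x * g x = f (x + h) * (g (x + h) - g x) +
        (f (x + h) - f x) * g x := by ring
    rw [e]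
    have h1 : ‖f (x + h) * (g (x + h) - g x)‖ ≤ A * (B * ‖h‖) := by
      rw [norm_mul]
      exact mul_le_mul (f0 _ hxh) (g1 x h hx hxh) (norm_nonneg _) hA
    have h2 : ‖(f (x + h) - f x) * g x‖ ≤ (A * ‖h‖) * B := by
      rw [norm_mul]
      exact mul_le_mul (f1 x h hx hxh) (g0 _ hx) (norm_nonneg _) (by positivity)
    have h3 : 0 ≤ A * B * ‖h‖ := by positivity
    have h4 := norm_add_le (f (x + h) * (g (x + h) - g x)) ((f (x + h) - f x) * g x)
    nlinarith
  · have e : f (x + h) * g (x + h) + f (x - h) * g (x - h) - 2 * (f x * g x) =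
        (f x * (g (x + h) + g (x - h) - 2 * g x) + g x * (f (x + h) + f (x - h) - 2 * f x)) +
          ((f (x + h) - f x) * (g (x + h) - g x) + (f (x - h) - f x) * (g (x - h) - g x)) := by
      ring
    rw [e]
    have hm : ∀ y, x - y = x + -y := fun y => sub_eq_add_neg x y
    have h1 : ‖f x * (g (x + h) + g (x - h) - 2 * g x)‖ ≤ A * (B * ‖h‖ ^ 2) := by
      rw [norm_mul]
      exact mul_le_mul (f0 _ hx) (g2 x h hx hxh hxh') (norm_nonneg _) hA
    have h2 : ‖g x * (f (x + h) + f (x - h) - 2 * f x)‖ ≤ B * (A * ‖h‖ ^ 2) := by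
      rw [norm_mul]
      exact mul_le_mul (g0 _ hx) (f2 x h hx hxh hxh') (norm_nonneg _) hB
    have h3 : ‖(f (x + h) - f x) * (g (x + h) - g x)‖ ≤ (A * ‖h‖) * (B * ‖h‖) := by
      rw [norm_mul]
      exact mul_le_mul (f1 x h hx hxh) (g1 x h hx hxh) (norm_nonneg _) (by positivity)
    have h4 : ‖(f (x - h) - f x) * (g (x - h) - g x)‖ ≤ (A * ‖h‖) * (B * ‖h‖) := by
      rw [norm_mul]
      have h5 := f1 x (-h) hx (by rw [← hm]; exact hxh')
      have h6 := g1 x (-h) hx (by rw [← hm]; exact hxh')
      rw [norm_neg, ← hm] at h5 h6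
      exact mul_le_mul h5 h6 (norm_nonneg _) (by positivity)
    have h7 := norm_add_le (f x * (g (x + h) + g (x - h) - 2 * g x))
      (g x * (f (x + h) + f (x - h) - 2 * f x))
    have h8 := norm_add_le ((f (x + h) - f x) * (g (x + h) - g x))
      ((f (x - h) - f x) * (g (x - h) - g x))
    have h9 := norm_add_le (f x * (g (x + h) + g (x - h) - 2 * g x) +
      g x * (f (x + h) + f (x - h) - 2 * f x)) ((f (x + h) - f x) * (g (x + h) - g x) +
      (f (x - h) - f x) * (g (x - h) - g x))
    have h10 : A * (B * ‖h‖ ^ 2) + B * (A * ‖h‖ ^ 2) + ((A * ‖h‖) * (B * ‖h‖) +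
      (A * ‖h‖) * (B * ‖h‖)) = 4 * (A * B) * ‖h‖ ^ 2 := by ring
    linarith

theorem Nice.pow {R : ℝ} {f : EuclideanSpace ℝ (Fin n) → ℂ} (hf : Nice R f) (k : ℕ) :
    Nice R fun x => f x ^ k := by
  induction k with
  | zero => simpa using Nice.const (n := n) R 1
  | succ k ih =>
    simp only [pow_succ]
    exact ih.mul hf

theorem Nice.star {R : ℝ} {f : EuclideanSpace ℝ (Fin n) → ℂ} (hf : Nice R f) :
    Nice R fun x => (starRingEnd ℂ) (f x) := by
  obtain ⟨cf, A, hA, f0, f1, f2⟩ := hf
  refine ⟨Complex.continuous_conj.comp cf, A, hA, fun x hx => ?_, fun x h hx hxh => ?_,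
    fun x h hx hxh hxh' => ?_⟩
  · rw [Complex.norm_conj]
    exact f0 x hx
  · rw [← map_sub, Complex.norm_conj]
    exact f1 x h hx hxh
  · have e : (starRingEnd ℂ) (f (x + h)) + (starRingEnd ℂ) (f (x - h)) -
        2 * (starRingEnd ℂ) (f x) = (starRingEnd ℂ) (f (x + h) + f (x - h) - 2 * f x) := by
      rw [map_sub, map_add, map_mul, map_ofNat]
    rw [e, Complex.norm_conj]
    exact f2 x h hx hxh hxh'

/-- Real linear functions are nice. -/
theorem Nice.linear (R : ℝ) (f : EuclideanSpace ℝ (Fin n) →L[ℝ] ℂ) : Nice R f := by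
  refine ⟨f.continuous, ‖f‖ * (|R| + 1), by positivity, fun x hx => ?_, fun x h _ _ => ?_,
    fun x h _ _ _ => ?_⟩
  · refine (f.le_opNorm x).trans (mul_le_mul_of_nonneg_left ?_ (norm_nonneg _))
    linarith [le_abs_self R]
  · rw [map_add, add_sub_cancel_left]
    refine (f.le_opNorm h).trans ?_
    have h1 : 0 ≤ ‖f‖ * |R| * ‖h‖ := by positivity
    nlinarith
  · have e : f (x + h) + f (x - h) - 2 * f x = 0 := by
      rw [map_add, map_sub]
      ring
    rw [e, norm_zero]
    positivity

/-- Translation of a chord integral. -/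
theorem chord_shift (G : ℝ → ℂ) {a b : ℝ} (hab : a ≤ b) :
    ∫ y in Icc a b, G y = ∫ y in Icc (-((b - a) / 2)) ((b - a) / 2), G (y + (a + b) / 2) := by
  rw [integral_Icc_eq_integral_Ioc, integral_Icc_eq_integral_Ioc,
    ← intervalIntegral.integral_of_le hab, ← intervalIntegral.integral_of_le (by linarith),
    intervalIntegral.integral_comp_add_right]
  congr 1 <;> ring

/-- The second order estimate. -/
theorem gen2 {u : EuclideanSpace ℝ (Fin n)} (hu : ‖u‖ = 1)
    {K : Set (EuclideanSpace ℝ (Fin n))} (hK : IsCompact K) (hc : Convex ℝ K) {R C : ℝ}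
    (hR : K ⊆ closedBall 0 R) {g : EuclideanSpace ℝ (Fin n) → ℂ} (hg : Continuous g)
    (h2 : Reg2 R C g) :
    ‖(∫ x in st u K, g x) - ((∫ x in K, g x) + ∫ x in rho u '' K, g x) / 2‖ ≤
      C / 2 * Dlt u K := by
  have hS := isCompact_st hu hK hc
  have hch := chords hu hK hc
  have hRK : IsCompact (rho u '' K) := hK.image (rho u).continuous
  have i1 := integrable_ci hu hK.measurableSet (hg.continuousOn.integrableOn_compact hK)
  have i2 := integrable_ci hu hS.measurableSet (hg.continuousOn.integrableOn_compact hS)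
  have i3 := integrable_ci hu hRK.measurableSet (hg.continuousOn.integrableOn_compact hRK)
  have i4 := dlt_eq hu hch hK hS
  have i5 : Integrable (fun a => (ci u K g a + ci u (rho u '' K) g a) / 2) :=
    (i1.1.add i3.1).div_const 2
  rw [← i1.2, ← i2.2, ← i3.2, ← integral_add i1.1 i3.1, ← integral_div, ← integral_sub i2.1 i5,
    ← i4.2, ← integral_const_mul]
  refine norm_integral_le_of_norm_le (i4.1.const_mul _) (Eventually.of_forall fun t => ?_)
  unfold ci
  rcases hch t with ⟨h1, h3, h4⟩ | ⟨a, b, hab, h1, h3, h4⟩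
  · simp [h1, h3, h4]
  · have hcont : Continuous fun y : ℝ => g (pt u t y) := by
      have : Continuous fun y : ℝ => pt u t y := by unfold pt; fun_prop
      exact hg.comp this
    have hcont1 : Continuous fun y : ℝ => g (pt u t (y + (a + b) / 2)) :=
      hcont.comp (by fun_prop)
    have hcont2 : Continuous fun y : ℝ => g (pt u t (y - (a + b) / 2)) :=
      hcont.comp (by fun_prop)
    have e1 : ∫ y in Icc (-b) (-a), g (pt u t y) =
        ∫ y in Icc (-((b - a) / 2)) ((b - a) / 2), g (pt u t (y - (a + b) / 2)) := by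
      rw [chord_shift (fun y => g (pt u t y)) (by linarith : -b ≤ -a)]
      have e2 : (-a - -b) / 2 = (b - a) / 2 := by ring
      rw [e2]
      refine integral_congr_ae (Eventually.of_forall fun y => ?_)
      simp only
      congr 2
      ring
    have e0 := chord_shift (fun y => g (pt u t y)) hab
    simp only [norm_pt hu, h1, h3, h4]
    rw [sq_chord _ _ _ hab, e1, e0]
    have c0 := hcont.continuousOn.integrableOn_compact (μ := volume)
      (isCompact_Icc (a := -((b - a) / 2)) (b := (b - a) / 2))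
    have c1 := hcont1.continuousOn.integrableOn_compact (μ := volume)
      (isCompact_Icc (a := -((b - a) / 2)) (b := (b - a) / 2))
    have c2 := hcont2.continuousOn.integrableOn_compact (μ := volume)
      (isCompact_Icc (a := -((b - a) / 2)) (b := (b - a) / 2))
    have c3 : IntegrableOn (fun y => (g (pt u t (y + (a + b) / 2)) +
        g (pt u t (y - (a + b) / 2))) / 2) (Icc (-((b - a) / 2)) ((b - a) / 2)) :=
      (c1.add c2).div_const 2
    rw [← integral_add c1 c2, ← integral_div, ← integral_sub c0 c3]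
    have hb := norm_setIntegral_le_of_norm_le_const (μ := volume)
      (s := Icc (-((b - a) / 2)) ((b - a) / 2))
      (f := fun y : ℝ => g (pt u t y) - (g (pt u t (y + (a + b) / 2)) +
        g (pt u t (y - (a + b) / 2))) / 2) (C := C / 2 * ((a + b) / 2) ^ 2) (by simp) ?_
    · refine hb.trans (le_of_eq ?_)
      rw [Measure.real, Real.volume_Icc, ENNReal.toReal_ofReal (by linarith)]
      ring
    · intro y hy
      rw [mem_Icc] at hy
      have p0 : pt u t y ∈ st u K := by
        have : y ∈ chord u (st u K) t := by rw [h3]; exact hy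
        exact this
      have p1 : pt u t (y + (a + b) / 2) ∈ K := by
        have : y + (a + b) / 2 ∈ chord u K t := by
          rw [h1, mem_Icc]
          constructor <;> linarith [hy.1, hy.2]
        exact this
      have p2 : pt u t (-(y - (a + b) / 2)) ∈ K := by
        have : -(y - (a + b) / 2) ∈ chord u K t := by
          rw [h1, mem_Icc]
          constructor <;> linarith [hy.1, hy.2]
        exact this
      have q0 := mem_closedBall_zero_iff.1 (st_subset hu hK hc hR p0)
      have q1 := mem_closedBall_zero_iff.1 (hR p1)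
      have q2 := mem_closedBall_zero_iff.1 (hR p2)
      rw [← rho_pt hu, LinearIsometryEquiv.norm_map] at q2
      have s1 : pt u t y + ((a + b) / 2) • u = pt u t (y + (a + b) / 2) := by
        unfold pt
        rw [add_smul, add_assoc]
      have s2 : pt u t y - ((a + b) / 2) • u = pt u t (y - (a + b) / 2) := by
        unfold pt
        rw [sub_smul, add_sub_assoc]
      have hh := h2 (pt u t y) (((a + b) / 2) • u) q0 (by rw [s1]; exact q1)
        (by rw [s2]; exact q2)
      rw [s1, s2, norm_smul, hu, mul_one, Real.norm_eq_abs, sq_abs] at hh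
      have e3 : g (pt u t y) - (g (pt u t (y + (a + b) / 2)) +
          g (pt u t (y - (a + b) / 2))) / 2 = -((g (pt u t (y + (a + b) / 2)) +
          g (pt u t (y - (a + b) / 2)) - 2 * g (pt u t y)) / 2) := by ring
      rw [e3, norm_neg, norm_div, Complex.norm_ofNat]
      linarith

end MP_02d86d_gt
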