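import Pool.Agent.Work.MP_02d86d_gt.Body
import Pool.Agent.Work.MP_02d86d_gt.Comp

/-! Iterated Steiner symmetrals converge in shape. -/

set_option autoImplicit false

namespace MP_02d86d_gt

open MeasureTheory Set Filter Topology Metric

variable {n : ℕ}

/-- The constant of the main inequality. -/
noncomputable def cst (n : ℕ) (R : ℝ) : ℝ :=
  ∫ ξ : EuclideanSpace ℝ (Fin n),
    3 * (volume (closedBall (0 : EuclideanSpace ℝ (Fin n)) R)).toReal * (‖ξ‖ ^ 2 * wt ξ)

/-- The main inequality: the distance to any set does not decrease on the average, up to the loss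
of inertia. -/
theorem star {R : ℝ} {u : EuclideanSpace ℝ (Fin n)} (hu : ‖u‖ = 1)
    {K Z : Set (EuclideanSpace ℝ (Fin n))} (hK : IsCompact K) (hc : Convex ℝ K)
    (hR : K ⊆ closedBall 0 R) (hZ : IsCompact Z) (hZR : Z ⊆ closedBall 0 R) :
    (F K Z + F (rho u '' K) Z) / 2 - cst n R * Dlt u K ≤ F (st u K) Z := by
  have hch := chords hu hK hc
  have hS := isCompact_st hu hK hc
  have hRK : IsCompact (rho u '' K) := hK.image (rho u).continuous
  have hSR := st_subset hu hK hc hR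
  have hRR : rho u '' K ⊆ closedBall 0 R := by
    rintro _ ⟨x, hx, rfl⟩
    have := hR hx
    rw [mem_closedBall_zero_iff] at this ⊢
    rwa [LinearIsometryEquiv.norm_map]
  set V := (volume (closedBall (0 : EuclideanSpace ℝ (Fin n)) R)).toReal with hV
  have hV0 : 0 ≤ V := ENNReal.toReal_nonneg
  have hD := dlt_nonneg hu hch hK hS
  have hKV : (volume K).toReal ≤ V :=
    ENNReal.toReal_mono measure_closedBall_lt_top.ne (measure_mono hR)
  have key : ∀ ξ, ((‖Th K ξ - Th Z ξ‖ ^ 2 * wt ξ) + (‖Th (rho u '' K) ξ - Th Z ξ‖ ^ 2 * wt ξ)) / 2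
      - 3 * V * (‖ξ‖ ^ 2 * wt ξ) * Dlt u K ≤ ‖Th (st u K) ξ - Th Z ξ‖ ^ 2 * wt ξ := by
    intro ξ
    have h1 := est2 hu hch hK hS ξ
    have h2 := est1 hu hch hK hS ξ
    have h3 : ‖(Th K ξ + Th (rho u '' K) ξ) / 2 - Th Z ξ‖ ≤ 2 * V := by
      have a1 := norm_Th_le' hK hR ξ
      have a2 := norm_Th_le' hRK hRR ξ
      have a3 := norm_Th_le' hZ hZR ξ
      calc _ ≤ ‖(Th K ξ + Th (rho u '' K) ξ) / 2‖ + ‖Th Z ξ‖ := norm_sub_le _ _
        _ ≤ (‖Th K ξ‖ + ‖Th (rho u '' K) ξ‖) / 2 + ‖Th Z ξ‖ := by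
            rw [norm_div, Complex.norm_two]
            have := norm_add_le (Th K ξ) (Th (rho u '' K) ξ)
            linarith
        _ ≤ 2 * V := by linarith
    have h4 := parallelogram h1 h2 h3
    have h5 : 4 * ‖ξ‖ ^ 2 * (volume K).toReal * Dlt u K ≤ 4 * ‖ξ‖ ^ 2 * V * Dlt u K := by
      have : 0 ≤ 4 * ‖ξ‖ ^ 2 := by positivity
      exact mul_le_mul_of_nonneg_right (mul_le_mul_of_nonneg_left hKV this) hD
    have h6 : (‖Th K ξ - Th Z ξ‖ ^ 2 + ‖Th (rho u '' K) ξ - Th Z ξ‖ ^ 2) / 2 -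
        3 * V * ‖ξ‖ ^ 2 * Dlt u K ≤ ‖Th (st u K) ξ - Th Z ξ‖ ^ 2 := by linarith
    have h7 := mul_le_mul_of_nonneg_right h6 (wt_nonneg ξ)
    linarith
  have hi1 := integrable_F hK hZ
  have hi2 := integrable_F hRK hZ
  have hi3 := integrable_F hS hZ
  have hi4 : Integrable fun ξ : EuclideanSpace ℝ (Fin n) => 3 * V * (‖ξ‖ ^ 2 * wt ξ) :=
    integrable_sq_wt.const_mul _
  have hi5 : Integrable fun ξ => ((‖Th K ξ - Th Z ξ‖ ^ 2 * wt ξ) +
      (‖Th (rho u '' K) ξ - Th Z ξ‖ ^ 2 * wt ξ)) / 2 := (hi1.add hi2).div_const 2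
  have hi6 : Integrable fun ξ => 3 * V * (‖ξ‖ ^ 2 * wt ξ) * Dlt u K := hi4.mul_const _
  have h : (∫ ξ, (((‖Th K ξ - Th Z ξ‖ ^ 2 * wt ξ) +
      (‖Th (rho u '' K) ξ - Th Z ξ‖ ^ 2 * wt ξ)) / 2 - 3 * V * (‖ξ‖ ^ 2 * wt ξ) * Dlt u K)) ≤
      ∫ ξ, ‖Th (st u K) ξ - Th Z ξ‖ ^ 2 * wt ξ := integral_mono (hi5.sub hi6) hi3 key
  rw [integral_sub hi5 hi6, integral_div, integral_add hi1 hi2, integral_mul_const] at h
  exact h

theorem F_self (K : Set (EuclideanSpace ℝ (Fin n))) : F K K = 0 := by simp [F]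

/-- The squared distance of `K` from the orbit of `L`. -/
noncomputable def orb (L K : Set (EuclideanSpace ℝ (Fin n))) : ℝ :=
  ⨅ ψ : EuclideanSpace ℝ (Fin n) ≃ₗᵢ[ℝ] EuclideanSpace ℝ (Fin n), F K (ψ '' L)

theorem orb_le (L K : Set (EuclideanSpace ℝ (Fin n)))
    (ψ : EuclideanSpace ℝ (Fin n) ≃ₗᵢ[ℝ] EuclideanSpace ℝ (Fin n)) : orb L K ≤ F K (ψ '' L) :=
  ciInf_le ⟨0, by rintro _ ⟨φ, rfl⟩; exact F_nonneg _ _⟩ ψ

theorem orb_nonneg (L K : Set (EuclideanSpace ℝ (Fin n))) : 0 ≤ orb L K :=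
  le_ciInf fun _ => F_nonneg _ _

theorem image_subset_ball {R : ℝ} {L : Set (EuclideanSpace ℝ (Fin n))} (h : L ⊆ closedBall 0 R)
    (ψ : EuclideanSpace ℝ (Fin n) ≃ₗᵢ[ℝ] EuclideanSpace ℝ (Fin n)) :
    ψ '' L ⊆ closedBall 0 R := by
  rintro _ ⟨x, hx, rfl⟩
  have := h hx
  rw [mem_closedBall_zero_iff] at this ⊢
  rwa [LinearIsometryEquiv.norm_map]

theorem orb_step {R : ℝ} {u : EuclideanSpace ℝ (Fin n)} (hu : ‖u‖ = 1)
    {K L : Set (EuclideanSpace ℝ (Fin n))} (hK : IsCompact K) (hc : Convex ℝ K)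
    (hR : K ⊆ closedBall 0 R) (hL : IsCompact L) (hLR : L ⊆ closedBall 0 R) :
    orb L K - cst n R * Dlt u K ≤ orb L (st u K) := by
  refine le_ciInf fun ψ => ?_
  refine le_trans ?_ (star hu hK hc hR (hL.image ψ.continuous) (image_subset_ball hLR ψ))
  have h1 := orb_le L K ψ
  have h2 : orb L K ≤ F (rho u '' K) (ψ '' L) := by
    have h3 := orb_le L K (ψ.trans (rho u))
    have h4 := F_image (rho u) K ((ψ.trans (rho u)) '' L)
    have h5 : rho u '' ((ψ.trans (rho u)) '' L) = ψ '' L := by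
      rw [image_image]
      apply image_congr
      intro x _
      rw [LinearIsometryEquiv.trans_apply, rho_rho]
    rw [h5] at h4
    rwa [h4]
  linarith

/-- A family of convex bodies obtained by iterated Steiner symmetrization. -/
structure Iter (R : ℝ) (u : ℕ → EuclideanSpace ℝ (Fin n))
    (K : ℕ → Set (EuclideanSpace ℝ (Fin n))) : Prop where
  hu : ∀ i, ‖u i‖ = 1
  step : ∀ i, K (i + 1) = st (u i) (K i)
  cpt : ∀ i, IsCompact (K i)
  cvx : ∀ i, Convex ℝ (K i)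
  ne : ∀ i, (K i).Nonempty
  sub : ∀ i, K i ⊆ closedBall 0 R
  vol : ∀ i, volume (K i) = volume (K 0)
  pos : volume (K 0) ≠ 0

theorem exists_iter {u : ℕ → EuclideanSpace ℝ (Fin n)} {K : ℕ → Set (EuclideanSpace ℝ (Fin n))}
    (hu : ∀ i, ‖u i‖ = 1) (step : ∀ i, K (i + 1) = st (u i) (K i)) (h0 : IsCompact (K 0))
    (hc : Convex ℝ (K 0)) (hi : (interior (K 0)).Nonempty) : ∃ R, Iter R u K := by
  obtain ⟨R, hR⟩ := h0.isBounded.subset_closedBall 0
  have h : ∀ i, IsCompact (K i) ∧ Convex ℝ (K i) ∧ (K i).Nonempty ∧ K i ⊆ closedBall 0 R ∧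
      volume (K i) = volume (K 0) := by
    intro i
    induction i with
    | zero => exact ⟨h0, hc, hi.mono interior_subset, hR, rfl⟩
    | succ i ih =>
      obtain ⟨a, b, c, d, e⟩ := ih
      rw [step i]
      exact ⟨isCompact_st (hu i) a b, convex_st (hu i) a b, st_nonempty (hu i) a b c,
        st_subset (hu i) a b d, (volume_st (hu i) a b).trans e⟩
  exact ⟨R, hu, step, fun i => (h i).1, fun i => (h i).2.1, fun i => (h i).2.2.1,
    fun i => (h i).2.2.2.1, fun i => (h i).2.2.2.2,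
    ((isOpen_interior.measure_pos volume hi).trans_le (measure_mono interior_subset)).ne'⟩

section
variable {R : ℝ} {u : ℕ → EuclideanSpace ℝ (Fin n)} {K : ℕ → Set (EuclideanSpace ℝ (Fin n))}

theorem Iter.dlt (h : Iter R u K) (i : ℕ) :
    Dlt (u i) (K i) = inertia (K i) - inertia (K (i + 1)) := by
  unfold Dlt inertia
  rw [h.step i]

theorem Iter.dlt_nonneg (h : Iter R u K) (i : ℕ) : 0 ≤ Dlt (u i) (K i) :=
  MP_02d86d_gt.dlt_nonneg (h.hu i) (chords (h.hu i) (h.cpt i) (h.cvx i)) (h.cpt i)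
    (isCompact_st (h.hu i) (h.cpt i) (h.cvx i))

theorem Iter.inertia_tendsto (h : Iter R u K) :
    ∃ I, Tendsto (fun i => inertia (K i)) atTop (𝓝 I) := by
  have ha : Antitone fun i => inertia (K i) := antitone_nat_of_succ_le fun i => by
    have h1 := h.dlt_nonneg i
    rw [h.dlt i] at h1
    linarith
  exact ⟨_, tendsto_atTop_ciInf ha ⟨0, by rintro _ ⟨i, rfl⟩; exact inertia_nonneg _⟩⟩

theorem cst_nonneg (R : ℝ) : 0 ≤ cst n R :=
  integral_nonneg fun ξ => by
    have := wt_nonneg ξ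
    simp only [Pi.zero_apply]
    positivity

/-- The distance from the orbit of any body converges. -/
theorem Iter.orb_tendsto (h : Iter R u K) {L : Set (EuclideanSpace ℝ (Fin n))}
    (hL : IsCompact L) (hLR : L ⊆ closedBall 0 R) :
    ∃ e, Tendsto (fun i => orb L (K i)) atTop (𝓝 e) := by
  obtain ⟨I, hI⟩ := h.inertia_tendsto
  obtain ⟨B, hB⟩ := F_le (n := n) R
  have hm : Monotone fun i => orb L (K i) - cst n R * inertia (K i) :=
    monotone_nat_of_le_succ fun i => by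
      have h1 := orb_step (h.hu i) (h.cpt i) (h.cvx i) (h.sub i) hL hLR
      rw [h.dlt i, ← h.step i] at h1
      linarith
  have hbdd : BddAbove (range fun i => orb L (K i) - cst n R * inertia (K i)) := by
    refine ⟨B, ?_⟩
    rintro _ ⟨i, rfl⟩
    have h1 := orb_le L (K i) (LinearIsometryEquiv.refl ℝ _)
    have h2 : (LinearIsometryEquiv.refl ℝ (EuclideanSpace ℝ (Fin n))) '' L = L := by
      simp
    rw [h2] at h1
    have h3 := hB (K i) L (h.cpt i) hL (h.sub i) hLR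
    have h4 := mul_nonneg (cst_nonneg (n := n) R) (inertia_nonneg (K i))
    simp only
    linarith
  have h1 := tendsto_atTop_ciSup hm hbdd
  have h2 := h1.add (hI.const_mul (cst n R))
  refine ⟨_, h2.congr fun i => ?_⟩
  ring

/-- Iterated Steiner symmetrals converge in shape. -/
theorem Iter.shape (h : Iter R u K) :
    ∃ (ψ : ℕ → (EuclideanSpace ℝ (Fin n) ≃ₗᵢ[ℝ] EuclideanSpace ℝ (Fin n)))
      (L : Set (EuclideanSpace ℝ (Fin n))), IsCompact L ∧ Convex ℝ L ∧ volume L = volume (K 0) ∧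
        L.Nonempty ∧ L ⊆ closedBall 0 R ∧
        Tendsto (fun i => hausdorffDist (ψ i '' K i) L) atTop (𝓝 0) := by
  obtain ⟨L, φ, hφ, hL, hLc, hLn, hLR, hlim⟩ := blaschke K h.cpt h.cvx h.ne h.sub
  have hvL : volume L = volume (K 0) := by
    have h1 := tendsto_volume (fun i => h.ne (φ i)) hLn (fun i => h.cpt (φ i)) hL
      (fun i => h.cvx (φ i)) hLc (fun i => h.sub (φ i)) hlim
    have h2 : (fun i => volume (K (φ i))) = fun _ => volume (K 0) := funext fun i => h.vol _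
    rw [h2] at h1
    exact tendsto_nhds_unique h1 tendsto_const_nhds
  obtain ⟨e, he⟩ := h.orb_tendsto hL hLR
  have he0 : e = 0 := by
    have h1 := tendsto_F (fun i => h.ne (φ i)) hLn (fun i => h.cpt (φ i)) hL
      (fun i => h.cvx (φ i)) hLc (fun i => h.sub (φ i)) hL hlim
    rw [F_self] at h1
    have h2 : Tendsto (fun i => orb L (K (φ i))) atTop (𝓝 e) := he.comp hφ.tendsto_atTop
    have h3 : Tendsto (fun i => orb L (K (φ i))) atTop (𝓝 0) := by
      refine squeeze_zero (fun i => orb_nonneg _ _) (fun i => ?_) h1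
      have h4 := orb_le L (K (φ i)) (LinearIsometryEquiv.refl ℝ _)
      have h5 : (LinearIsometryEquiv.refl ℝ (EuclideanSpace ℝ (Fin n))) '' L = L := by
        simp
      rwa [h5] at h4
    exact tendsto_nhds_unique h2 h3
  subst he0
  have hex : ∀ i : ℕ, ∃ ψ : EuclideanSpace ℝ (Fin n) ≃ₗᵢ[ℝ] EuclideanSpace ℝ (Fin n),
      F (K i) (ψ '' L) < orb L (K i) + 1 / ((i : ℝ) + 1) := fun i =>
    exists_lt_of_ciInf_lt (lt_add_of_pos_right _ (by positivity))
  choose χ hχ using hex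
  refine ⟨fun i => (χ i).symm, L, hL, hLc, hvL, hLn, hLR, ?_⟩
  have hF : Tendsto (fun i => F ((χ i).symm '' K i) L) atTop (𝓝 0) := by
    have h1 : Tendsto (fun i : ℕ => orb L (K i) + 1 / ((i : ℝ) + 1)) atTop (𝓝 (0 + 0)) :=
      he.add tendsto_one_div_add_atTop_nhds_zero_nat
    rw [add_zero] at h1
    refine squeeze_zero (fun i => F_nonneg _ _) (fun i => ?_) h1
    have h2 := F_image (χ i) ((χ i).symm '' K i) L
    have h3 : χ i '' ((χ i).symm '' K i) = K i := by
      rw [image_image]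
      simp
    rw [h3] at h2
    rw [← h2]
    exact (hχ i).le
  refine tendsto_of_subseq_tendsto fun ns hns => ?_
  obtain ⟨L', φ', hφ', hL', hLc', hLn', hLR', hlim'⟩ := blaschke (R := R)
    (fun i => (χ (ns i)).symm '' K (ns i))
    (fun i => (h.cpt _).image (LinearIsometryEquiv.continuous _))
    (fun i => (h.cvx _).linear_image (χ (ns i)).symm.toLinearEquiv.toLinearMap)
    (fun i => (h.ne _).image _) (fun i => image_subset_ball (h.sub _) _)
  have c1 : ∀ i, IsCompact ((χ (ns (φ' i))).symm '' K (ns (φ' i))) :=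
    fun i => (h.cpt _).image (LinearIsometryEquiv.continuous _)
  have c2 : ∀ i, Convex ℝ ((χ (ns (φ' i))).symm '' K (ns (φ' i))) :=
    fun i => (h.cvx _).linear_image (χ (ns (φ' i))).symm.toLinearEquiv.toLinearMap
  have c3 : ∀ i, ((χ (ns (φ' i))).symm '' K (ns (φ' i))).Nonempty := fun i => (h.ne _).image _
  have c4 : ∀ i, (χ (ns (φ' i))).symm '' K (ns (φ' i)) ⊆ closedBall 0 R :=
    fun i => image_subset_ball (h.sub _) _
  have hvL' : volume L' = volume (K 0) := by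
    have h1 := tendsto_volume c3 hLn' c1 hL' c2 hLc' c4 hlim'
    have h2 : (fun i => volume ((χ (ns (φ' i))).symm '' K (ns (φ' i)))) =
        fun _ => volume (K 0) := funext fun i => by
      rw [← h.vol (ns (φ' i))]
      rw [LinearIsometryEquiv.image_eq_preimage_symm]
      exact (LinearIsometryEquiv.measurePreserving _).measure_preimage
        (h.cpt _).measurableSet.nullMeasurableSet
    rw [h2] at h1
    exact tendsto_nhds_unique h1 tendsto_const_nhds
  have h1 := tendsto_F c3 hLn' c1 hL' c2 hLc' c4 hL hlim'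
  have h2 : Tendsto (fun i => F ((χ (ns (φ' i))).symm '' K (ns (φ' i))) L) atTop (𝓝 0) :=
    hF.comp (hns.comp hφ'.tendsto_atTop)
  have h3 : F L' L = 0 := tendsto_nhds_unique h1 h2
  have h4 : L' = L := eq_of_F hL' hL hLc' hLc (by rw [hvL']; exact h.pos)
    (by rw [hvL]; exact h.pos) h3
  subst h4
  exact ⟨φ', hlim'⟩

end

end MP_02d86d_gt
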